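import Mathlib
import Pool.Agent.H418.F2.CenterKills

/-!
# The question for `G = SL_2 ^ m`: definitions

The groups `G = SL_2 ^ m` and `G^∨ = PGL_2 ^ m`, the cohomology of `Γ₀(N)` with coefficients in the
reduction of a stable lattice, and the hypotheses of the question on a homomorphism from the
absolute Galois group of `ℚ` to `PGL_2(k) ^ m`.
-/

set_option autoImplicit false

open CategoryTheory TensorProduct Matrix
open scoped MatrixGroups

namespace Pool.Agent.H418.F2

noncomputable section

/-! ### The absolute Galois group of `ℚ` -/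

/-- The algebraic closure of `ℚ`. -/
abbrev Qbar : Type := AlgebraicClosure ℚ

/-- The absolute Galois group of `ℚ` (with the Krull topology). -/
abbrev GQ : Type := AlgebraicClosure ℚ ≃ₐ[ℚ] AlgebraicClosure ℚ

/-- `A` is (the valuation ring of) a place of `Qbar` above the prime `ℓ`. -/
def Above (l : ℕ) (A : ValuationSubring Qbar) : Prop := (l : Qbar) ∈ A.nonunits

/-- The decomposition group of a place of `Qbar`. -/
abbrev decomp (A : ValuationSubring Qbar) : Subgroup GQ := A.decompositionSubgroup ℚ

/-- The inertia group of a place of `Qbar`, as a subgroup of the Galois group. -/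
def inertia (A : ValuationSubring Qbar) : Subgroup GQ :=
  (A.inertiaSubgroup ℚ).map (A.decompositionSubgroup ℚ).subtype

/-- `c` is a complex conjugation: it is induced by complex conjugation of `ℂ` through some
embedding of `Qbar` in `ℂ`. -/
def IsComplexConj (c : GQ) : Prop :=
  ∃ ι : Qbar →+* ℂ, ∀ z : Qbar, ι (c z) = (starRingEnd ℂ) (ι z)

/-- An automorphism of `Qbar` over `ℚ` as an automorphism of the field `Qbar`. -/
def toAut : GQ →* (Qbar ≃+* Qbar) := MulSemiringAction.toRingAut GQ Qbar

/-- The reduction modulo `p` of the `p`-adic cyclotomic character. -/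
def omega₀ (p : ℕ) [Fact p.Prime] : GQ →* (ZMod p)ˣ :=
  (Units.map (PadicInt.toZMod (p := p)).toMonoidHom).comp ((cyclotomicCharacter Qbar p).comp toAut)

/-- The mod `p` cyclotomic character, with values in the units of a field `k` of
characteristic `p`. -/
def omega (p : ℕ) [Fact p.Prime] (k : Type) [Field k] [CharP k p] : GQ →* kˣ :=
  (Units.map (ZMod.castHom (dvd_refl p) k).toMonoidHom).comp (omega₀ p)

/-! ### The group `G = SL_2 ^ m` -/

/-- `G(R) = SL_2(R) ^ m`. -/
def G (m : ℕ) (R : Type) [CommRing R] : Type := Fin m → SL(2, R)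

instance (m : ℕ) (R : Type) [CommRing R] : Group (G m R) :=
  @Pi.group (Fin m) (fun _ => SL(2, R)) (fun _ => inferInstance)

/-- The homomorphism `G(R) → G(S)` given by a ring homomorphism `R → S`. -/
def gmap (m : ℕ) {R S : Type} [CommRing R] [CommRing S] (f : R →+* S) : G m R →* G m S where
  toFun g j := SpecialLinearGroup.map f (g j)
  map_one' := by
    funext j
    exact map_one _
  map_mul' g h := by
    funext j
    exact map_mul _ _ _

/-- The Borel subgroup `B(R)` of `G(R)`: all components are upper triangular. -/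
def borel (m : ℕ) (R : Type) [CommRing R] : Subgroup (G m R) where
  carrier := {g : G m R | ∀ j, (g j).1 1 0 = 0}
  mul_mem' := fun {a b} ha hb j => by
    change ((a j).1 * (b j).1) 1 0 = 0
    rw [Matrix.mul_apply, Fin.sum_univ_two]
    rw [show (a j).1 1 0 = 0 from ha j, show (b j).1 1 0 = 0 from hb j]
    ring
  one_mem' := fun j => by
    change (1 : Matrix (Fin 2) (Fin 2) R) 1 0 = 0
    simp
  inv_mem' := fun {a} ha j => by
    change (adjugate (a j).1) 1 0 = 0
    rw [Matrix.adjugate_fin_two]
    simp only [Matrix.of_apply, Matrix.cons_val_one, Matrix.cons_val_zero, Matrix.cons_val']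
    rw [show (a j).1 1 0 = 0 from ha j, neg_zero]

/-- `Γ₀(N)`: the preimage in `G(ℤ)` of `B(ℤ/N)`. -/
def Gamma0 (m N : ℕ) : Subgroup (G m ℤ) :=
  (borel m (ZMod N)).comap (gmap m (Int.castRingHom (ZMod N)))

/-! ### Weights of `SL_2 ^ m`

The character of the diagonal torus `T` of `SL_2 ^ m` which sends the element with components
`diag(t_j, t_j⁻¹)` to `∏ t_j ^ (x j)` is written as the vector `x : Fin m → ℤ`.  Its pairing with
the `j`-th simple coroot is `x j`, and the half-sum of the positive roots is the vector all of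
whose entries are `1`. -/

/-- The weight `x` is strongly regular: its pairing with every simple coroot is at least `2`. -/
def StronglyRegular {m : ℕ} (x : Fin m → ℤ) : Prop := ∀ j, 2 ≤ x j

/-- The half-sum `ρ` of the positive roots of `SL_2 ^ m`. -/
def rho (m : ℕ) (_ : Fin m) : ℤ := 1

/-- `π` is an irreducible representation of `G(ℚ)` over `ℚ` with a highest weight vector of
weight `wt`. -/
structure IsIrreducibleOfHighestWeight {m : ℕ} {V : Type} [AddCommGroup V] [Module ℚ V]
    (π : Representation ℚ (G m ℚ) V) (wt : Fin m → ℤ) : Prop where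
  irreducible : ∀ W : Submodule ℚ V, (∀ g, ∀ w ∈ W, π g w ∈ W) → W = ⊥ ∨ W = ⊤
  highest : ∃ v : V, v ≠ 0 ∧ ∀ b ∈ borel m ℚ, π b v = (∏ j, ((b j).1 0 0) ^ (wt j)) • v

/-- `M` is a lattice in `V` stable under `G(ℤ)`. -/
structure IsStableLattice {m : ℕ} {V : Type} [AddCommGroup V] [Module ℚ V]
    (π : Representation ℚ (G m ℚ) V) (M : Submodule ℤ V) : Prop where
  fg : M.FG
  span : Submodule.span ℚ (M : Set V) = ⊤
  stable : ∀ g : G m ℤ, ∀ v ∈ M, π (gmap m (Int.castRingHom ℚ) g) v ∈ M

/-- The action of a group on a stable lattice. -/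
def latticeRep {Γ : Type} [Group Γ] {V : Type} [AddCommGroup V] [Module ℚ V]
    (π : Representation ℚ Γ V) (M : Submodule ℤ V) (hM : ∀ g : Γ, ∀ v ∈ M, π g v ∈ M) :
    Representation ℤ Γ M where
  toFun g := ((π g).restrictScalars ℤ).restrict (fun v hv => hM g v hv)
  map_one' := by
    ext v
    simp
  map_mul' g h := by
    ext v
    change π (g * h) v.1 = π g (π h v.1)
    rw [map_mul, Module.End.mul_apply]

/-- The action of a group on `M ⊗ k`. -/
def modRep {Γ : Type} [Group Γ] {M : Type} [AddCommGroup M] (ρ : Representation ℤ Γ M)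
    (k : Type) [Field k] : Representation k Γ (k ⊗[ℤ] M) where
  toFun g := (ρ g).baseChange k
  map_one' := by
    ext v
    simp
  map_mul' g h := by
    ext v
    simp

/-- The representation of `Γ₀(N)` obtained from a representation of `G(ℚ)`. -/
def resRep {m : ℕ} {V : Type} [AddCommGroup V] [Module ℚ V] (π : Representation ℚ (G m ℚ) V)
    (N : ℕ) : Representation ℚ (Gamma0 m N) V :=
  π.comp ((gmap m (Int.castRingHom ℚ)).comp (Gamma0 m N).subtype)

/-- The cohomology group `H^i(Γ₀(N), M ⊗ k)`. -/
def H {m : ℕ} {V : Type} [AddCommGroup V] [Module ℚ V]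
    {π : Representation ℚ (G m ℚ) V} {M : Submodule ℤ V} (hM : IsStableLattice π M) (N : ℕ)
    (k : Type) [Field k] (i : ℕ) : ModuleCat k :=
  groupCohomology (Rep.of (modRep (latticeRep (resRep π N) M (fun g => hM.stable g.1)) k)) i

/-! ### The dual group `G^∨ = PGL_2 ^ m` and the hypotheses on the Galois representation -/

/-- `G^∨(k) = PGL_2(k) ^ m`. -/
def GD (m : ℕ) (k : Type) [Field k] : Type := Fin m → PGL(2, k)

instance (m : ℕ) (k : Type) [Field k] : Group (GD m k) :=
  @Pi.group (Fin m) (fun _ => PGL(2, k)) (fun _ => inferInstance)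

/-- The element of `G^∨(k) = PGL_2(k) ^ m` given by a tuple of invertible matrices. -/
def cls {m : ℕ} {k : Type} [Field k] (g : Fin m → GL (Fin 2) k) : GD m k :=
  fun j => ProjGenLinGroup.mk (g j)

/-- The scalar matrices. -/
def scal (k : Type) [Field k] : Submodule k (Matrix (Fin 2) (Fin 2) k) :=
  Submodule.span k {(1 : Matrix (Fin 2) (Fin 2) k)}

/-- The Lie algebra of `PGL_2` over `k`: all matrices modulo the scalar ones. -/
def LiePGL (k : Type) [Field k] : Type := Matrix (Fin 2) (Fin 2) k ⧸ scal k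

instance (k : Type) [Field k] : AddCommGroup (LiePGL k) :=
  Submodule.Quotient.addCommGroup (scal k)

instance (k : Type) [Field k] : Module k (LiePGL k) :=
  Submodule.Quotient.module (scal k)

/-- The Lie algebra of `PGL_2 ^ m` over `k`. -/
def LieGD (m : ℕ) (k : Type) [Field k] : Type := Fin m → LiePGL k

instance (m : ℕ) (k : Type) [Field k] : AddCommGroup (LieGD m k) :=
  @Pi.addCommGroup (Fin m) (fun _ => LiePGL k) (fun _ => inferInstance)

instance (m : ℕ) (k : Type) [Field k] : Module k (LieGD m k) :=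
  Pi.module (Fin m) (fun _ => LiePGL k) k

/-- Conjugation by `g` on matrices. -/
def conjMat {k : Type} [Field k] (g : GL (Fin 2) k) :
    Matrix (Fin 2) (Fin 2) k →ₗ[k] Matrix (Fin 2) (Fin 2) k :=
  (LinearMap.mulLeft k (g : Matrix (Fin 2) (Fin 2) k)).comp
    (LinearMap.mulRight k ((g⁻¹ : GL (Fin 2) k) : Matrix (Fin 2) (Fin 2) k))

/-- The adjoint action of (the class of) `g` on the Lie algebra of `PGL_2`. -/
def Ad {k : Type} [Field k] (g : GL (Fin 2) k) : LiePGL k →ₗ[k] LiePGL k :=
  Submodule.mapQ (scal k) (scal k) (conjMat g) (by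
    unfold scal
    rw [Submodule.span_le, Set.singleton_subset_iff]
    simp only [SetLike.mem_coe, Submodule.mem_comap]
    have : conjMat g (1 : Matrix (Fin 2) (Fin 2) k) = 1 := by
      simp [conjMat]
    rw [this]
    exact Submodule.mem_span_singleton_self _)

/-- The adjoint action of (the class of) a tuple `g` on the Lie algebra of `PGL_2 ^ m`. -/
def AdT {m : ℕ} {k : Type} [Field k] (g : Fin m → GL (Fin 2) k) : LieGD m k →ₗ[k] LieGD m k where
  toFun y := fun j => Ad (g j) (y j)
  map_add' y z := by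
    funext j
    exact map_add (Ad (g j)) (y j) (z j)
  map_smul' c y := by
    funext j
    exact map_smul (Ad (g j)) c (y j)

/-- `r` is odd: for every complex conjugation `c`, the trace of `Ad (r c)` on the Lie algebra of
`PGL_2 ^ m` over `k` is `rank(G) - 2 rank(K) = m - 2 m` (here `G(ℝ) = SL_2(ℝ) ^ m` and
`K = SO(2) ^ m`). -/
def IsOdd {m : ℕ} {k : Type} [Field k] (r : GQ →* GD m k) : Prop :=
  ∀ c : GQ, IsComplexConj c → ∀ g : Fin m → GL (Fin 2) k,
    cls g = r c → LinearMap.trace k (LieGD m k) (AdT g) = (((m : ℤ) - 2 * (m : ℤ) : ℤ) : k)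

/-- `r` is nearly ordinary of type `x` at `p`: at every place above `p` the restriction of `r` to
the decomposition group is conjugate into the Borel subgroup of upper triangular tuples, in
such a way that on inertia the diagonal part is the class of the tuple with components
`diag(ω ^ (x j), 1)`. -/
def IsNearlyOrdinary (p : ℕ) [Fact p.Prime] {m : ℕ} {k : Type} [Field k] [CharP k p]
    (x : Fin m → ℤ) (r : GQ →* GD m k) : Prop :=
  ∀ A : ValuationSubring Qbar, Above p A → ∃ g : Fin m → GL (Fin 2) k, ∀ σ ∈ decomp A,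
    ∃ b : Fin m → GL (Fin 2) k, (∀ j, (b j : Matrix (Fin 2) (Fin 2) k) 1 0 = 0) ∧
      r σ = cls g * cls b * (cls g)⁻¹ ∧
      (σ ∈ inertia A → ∀ j, ∃ c : kˣ,
        (b j : Matrix (Fin 2) (Fin 2) k) 0 0 = ((c * (omega p k σ) ^ (x j) : kˣ) : k) ∧
        (b j : Matrix (Fin 2) (Fin 2) k) 1 1 = (c : k))

/-- `r` is Steinberg at `l`: the image of inertia is the cyclic group generated by (the class of)
a principal unipotent element, that is a tuple of unipotent matrices different from `1`. -/
def IsSteinbergAt (l : ℕ) {m : ℕ} {k : Type} [Field k] (r : GQ →* GD m k) : Prop :=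
  ∀ A : ValuationSubring Qbar, Above l A → ∃ u : Fin m → GL (Fin 2) k,
    (∀ j, ((u j : Matrix (Fin 2) (Fin 2) k) - 1) ^ 2 = 0) ∧
    (∀ j, ((u j : Matrix (Fin 2) (Fin 2) k) - 1) ≠ 0) ∧
    (inertia A).map r = Subgroup.zpowers (cls u)

/-- `r` is unramified at `l`. -/
def IsUnramifiedAt (l : ℕ) {m : ℕ} {k : Type} [Field k] (r : GQ →* GD m k) : Prop :=
  ∀ A : ValuationSubring Qbar, Above l A → ∀ σ ∈ inertia A, r σ = 1

/-- All the hypotheses of the question, for `G = SL_2 ^ m`, on the weight `x`, the finite set `S`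
of primes and the homomorphism `r` from the absolute Galois group of `ℚ` to `G^∨(k)`. -/
structure Hypotheses (p : ℕ) [Fact p.Prime] {m : ℕ} (k : Type) [Field k] [CharP k p]
    (x : Fin m → ℤ) (S : Finset ℕ) (r : GQ →* GD m k) : Prop where
  regular : StronglyRegular x
  primes : ∀ l ∈ S, l.Prime ∧ l ≠ p
  continuous : IsOpen (r.ker : Set GQ)
  odd : IsOdd r
  ordinary : IsNearlyOrdinary p x r
  steinberg : ∀ l ∈ S, IsSteinbergAt l r
  unramified : ∀ l : ℕ, l.Prime → l ∉ S → l ≠ p → IsUnramifiedAt l r

/-- `r` is absolutely irreducible: over no extension field `K` of `k` is the image of `r`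
contained in a proper parabolic subgroup of `PGL_2 ^ m`.  Such a subgroup is a product of
subgroups of `PGL_2` one of which at least is the stabiliser of a line of `K ^ 2`; so the condition
is that, for every `j`, no line of `K ^ 2` is stable under the `j`-th component of `r`. -/
def IsAbsolutelyIrreducible {m : ℕ} {k : Type} [Field k] (r : GQ →* GD m k) : Prop :=
  ∀ (K : Type) [Field K] [Algebra k K] (j : Fin m) (v : Fin 2 → K), v ≠ 0 →
    ¬ ∀ (σ : GQ) (g : Fin m → GL (Fin 2) k), cls g = r σ →
      ∃ c : K, ((g j : Matrix (Fin 2) (Fin 2) k).map (algebraMap k K)).mulVec v = c • v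

/-! ### Vanishing of the cohomology -/

/-- The matrix `-1` as an element of `SL_2(R)`. -/
def negOne (R : Type) [CommRing R] : SL(2, R) := ⟨-1, by rw [Matrix.det_neg]; simp⟩

/-- The element of `G(R)` whose `j`-th component is `-1` and whose other components are `1`. -/
def cen {m : ℕ} (j : Fin m) (R : Type) [CommRing R] : G m R :=
  (Function.update (1 : Fin m → SL(2, R)) j (negOne R) : Fin m → SL(2, R))

lemma cen_self {m : ℕ} (j : Fin m) (R : Type) [CommRing R] : (cen j R j).1 = -1 := by
  unfold cen
  rw [Function.update_self]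
  rfl

lemma cen_ne {m : ℕ} {j i : Fin m} (h : i ≠ j) (R : Type) [CommRing R] : (cen j R i).1 = 1 := by
  unfold cen
  rw [Function.update_of_ne h]
  rfl

lemma cen_mem_borel {m : ℕ} (j : Fin m) (R : Type) [CommRing R] : cen j R ∈ borel m R := by
  intro i
  by_cases h : i = j
  · subst h
    rw [cen_self]
    simp
  · rw [cen_ne h]
    simp

lemma cen_comm {m : ℕ} (j : Fin m) (R : Type) [CommRing R] (g : G m R) :
    g * cen j R = cen j R * g := by
  funext i
  apply Subtype.ext
  change (g i).1 * (cen j R i).1 = (cen j R i).1 * (g i).1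
  by_cases h : i = j
  · subst h
    rw [cen_self]
    simp
  · rw [cen_ne h]
    simp

lemma gmap_cen {m : ℕ} (j : Fin m) {R S : Type} [CommRing R] [CommRing S] (f : R →+* S) :
    gmap m f (cen j R) = cen j S := by
  funext i
  apply Subtype.ext
  change f.mapMatrix (cen j R i).1 = (cen j S i).1
  by_cases h : i = j
  · subst h
    rw [cen_self, cen_self, map_neg, map_one]
  · rw [cen_ne h, cen_ne h, map_one]

/-- The `j`-th `-1` acts as `-1`. -/
lemma cen_act {m : ℕ} (j : Fin m) {V : Type} [AddCommGroup V] [Module ℚ V]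
    {π : Representation ℚ (G m ℚ) V} {wt : Fin m → ℤ} (h : IsIrreducibleOfHighestWeight π wt)
    (hwt : Odd (wt j)) (v : V) : π (cen j ℚ) v = -v := by
  obtain ⟨v₀, hv₀, hb⟩ := h.highest
  have h1 : π (cen j ℚ) v₀ = -v₀ := by
    rw [hb _ (cen_mem_borel j ℚ)]
    have h2 : ∏ i, ((cen j ℚ i).1 0 0) ^ (wt i) = (-1 : ℚ) := by
      rw [Finset.prod_eq_single j]
      · rw [cen_self]
        have : (-1 : Matrix (Fin 2) (Fin 2) ℚ) 0 0 = -1 := by simp
        rw [this, hwt.neg_one_zpow]
      · intro i _ hi
        rw [cen_ne hi]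
        simp
      · intro hj
        exact absurd (Finset.mem_univ j) hj
    rw [h2, neg_one_smul]
  let W : Submodule ℚ V := LinearMap.ker (π (cen j ℚ) + LinearMap.id)
  have hW : ∀ w, w ∈ W ↔ π (cen j ℚ) w = -w := by
    intro w
    simp only [W, LinearMap.mem_ker, LinearMap.add_apply, LinearMap.id_apply]
    exact add_eq_zero_iff_eq_neg
  have hst : ∀ g, ∀ w ∈ W, π g w ∈ W := by
    intro g w hw
    rw [hW] at hw ⊢
    rw [← Module.End.mul_apply, ← map_mul, ← cen_comm, map_mul, Module.End.mul_apply, hw,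
      map_neg]
  rcases h.irreducible W hst with h3 | h3
  · exact absurd ((Submodule.mem_bot ℚ).1 (h3 ▸ (hW v₀).2 h1)) hv₀
  · exact (hW v).1 (h3 ▸ Submodule.mem_top)

/-- In characteristic different from `2`, all the cohomology vanishes when one of the
coordinates of the highest weight is odd. -/
lemma vanishing {m : ℕ} (j : Fin m) {V : Type} [AddCommGroup V] [Module ℚ V]
    {π : Representation ℚ (G m ℚ) V} {wt : Fin m → ℤ} (h : IsIrreducibleOfHighestWeight π wt)
    (hwt : Odd (wt j)) {M : Submodule ℤ V} (hM : IsStableLattice π M) (N : ℕ) (k : Type)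
    [Field k] (h2 : (2 : k) ≠ 0) (i : ℕ) : Subsingleton (H hM N k i) := by
  have hmem : cen j ℤ ∈ Gamma0 m N := by
    change gmap m (Int.castRingHom (ZMod N)) (cen j ℤ) ∈ borel m (ZMod N)
    rw [gmap_cen]
    exact cen_mem_borel j _
  refine CenterKills.subsingleton_groupCohomology _ (⟨cen j ℤ, hmem⟩ : Gamma0 m N)
    (fun g => Subtype.ext (cen_comm j ℤ g)) ?_ (isUnit_iff_ne_zero.2 h2) i
  intro a
  have h1 : latticeRep (resRep π N) M (fun g => hM.stable g.1) ⟨cen j ℤ, hmem⟩ =
      -LinearMap.id := by
    ext v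
    change π (gmap m (Int.castRingHom ℚ) (cen j ℤ)) v.1 = _
    rw [gmap_cen, cen_act j h hwt]
    simp
  change (latticeRep (resRep π N) M (fun g => hM.stable g.1) ⟨cen j ℤ, hmem⟩).baseChange k a = -a
  rw [h1]
  simp

end

end Pool.Agent.H418.F2
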