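import Mathlib
import Pool.Agent.H418.F2.Defs

/-! Elementwise description of the decomposition and inertia groups of a place of `Qbar`. -/

set_option autoImplicit false

open scoped Pointwise

namespace Pool.Agent.H418.F2

instance instAlg : Algebra.IsAlgebraic ℚ Qbar := by
  constructor
  intro x
  have h := (AlgebraicClosure.isAlgebraic ℚ).isAlgebraic x
  obtain ⟨p, hp, hpx⟩ := h
  refine ⟨p, hp, ?_⟩
  have e : (Polynomial.aeval x : Polynomial ℚ →ₐ[ℚ] Qbar).toRingHom =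
      (@Polynomial.aeval ℚ Qbar _ _ (AlgebraicClosure.instAlgebra (k := ℚ) (R := ℚ)) x).toRingHom := by
    apply Polynomial.ringHom_ext
    · intro q
      simp
    · simp
  exact (congrArg (fun φ => φ p) e).trans hpx

noncomputable instance instClos : IsAlgClosure ℚ Qbar := ⟨inferInstance, inferInstance⟩

instance instGal : IsGalois ℚ Qbar := IsAlgClosure.isGalois ℚ Qbar

variable {A : ValuationSubring Qbar}

lemma nu_mem {z : Qbar} (hz : z ∈ A.nonunits) : z ∈ A := ValuationSubring.nonunits_le hz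

lemma nu_mul {y z : Qbar} (hy : y ∈ A) (hz : z ∈ A.nonunits) : y * z ∈ A.nonunits := by
  rw [ValuationSubring.mem_nonunits_iff] at hz ⊢
  rw [map_mul]
  exact lt_of_le_of_lt (mul_le_of_le_one_left' ((A.valuation_le_one_iff _).2 hy)) hz

lemma nu_mul' {y z : Qbar} (hy : y ∈ A.nonunits) (hz : z ∈ A) : y * z ∈ A.nonunits := by
  rw [mul_comm]
  exact nu_mul hz hy

lemma one_not_nu : (1 : Qbar) ∉ A.nonunits := by
  rw [ValuationSubring.mem_nonunits_iff, map_one]
  exact lt_irrefl _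

lemma nu_of_mul {y z : Qbar} (hy : y ∈ A) (hz : z ∈ A) (h : y * z ∈ A.nonunits) :
    y ∈ A.nonunits ∨ z ∈ A.nonunits := by
  by_contra hcon
  push Not at hcon
  obtain ⟨h1, h2⟩ := hcon
  rw [ValuationSubring.mem_nonunits_iff] at h h1 h2
  have e1 : A.valuation y = 1 := le_antisymm ((A.valuation_le_one_iff _).2 hy) (not_lt.1 h1)
  have e2 : A.valuation z = 1 := le_antisymm ((A.valuation_le_one_iff _).2 hz) (not_lt.1 h2)
  rw [map_mul, e1, e2, one_mul] at h
  exact lt_irrefl _ h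

lemma smul_eq (σ : GQ) (z : Qbar) : σ • z = σ z := rfl

lemma decomp_mem {σ : GQ} (hσ : σ ∈ decomp A) {z : Qbar} (hz : z ∈ A) : σ z ∈ A := by
  have h1 : σ • A = A := hσ
  have h2 : σ • z ∈ σ • A := ValuationSubring.smul_mem_pointwise_smul σ z A hz
  rw [h1] at h2
  exact h2

lemma decomp_mem_iff {σ : GQ} (hσ : σ ∈ decomp A) {z : Qbar} : σ z ∈ A ↔ z ∈ A := by
  refine ⟨fun h => ?_, decomp_mem hσ⟩
  have h2 := decomp_mem (inv_mem hσ) h
  have h3 : σ⁻¹ (σ z) = z := σ.symm_apply_apply z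
  rwa [h3] at h2

lemma nu_iff {z : Qbar} : z ∈ A.nonunits ↔ z = 0 ∨ z⁻¹ ∉ A :=
  A.mem_nonunits_iff_or

lemma decomp_nu {σ : GQ} (hσ : σ ∈ decomp A) {z : Qbar} (hz : z ∈ A.nonunits) :
    σ z ∈ A.nonunits := by
  rw [nu_iff] at hz ⊢
  rcases hz with rfl | hz
  · left
    exact map_zero _
  · right
    rw [← map_inv₀, decomp_mem_iff hσ]
    exact hz

lemma inertia_decomp {σ : GQ} (hσ : σ ∈ inertia A) : σ ∈ decomp A := by
  obtain ⟨τ, -, rfl⟩ := hσ
  exact τ.2

lemma inertia_sub {σ : GQ} (hσ : σ ∈ inertia A) {z : Qbar} (hz : z ∈ A) :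
    σ z - z ∈ A.nonunits := by
  obtain ⟨τ, hτ, rfl⟩ := hσ
  let zA : A := ⟨z, hz⟩
  have h4 : MulSemiringAction.toRingAut (A.decompositionSubgroup ℚ)
      (IsLocalRing.ResidueField A) τ = 1 := hτ
  have h5 := congrArg (fun f => f (IsLocalRing.residue A zA)) h4
  change τ • (IsLocalRing.residue A zA) = IsLocalRing.residue A zA at h5
  rw [← IsLocalRing.ResidueField.residue_smul] at h5
  have h6 : τ • zA - zA ∈ IsLocalRing.maximalIdeal A := by
    rw [← IsLocalRing.residue_eq_zero_iff, map_sub, h5, sub_self]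
  rw [← ValuationSubring.coe_mem_nonunits_iff] at h6
  exact h6

lemma mem_inertia {σ : GQ} (hσ : σ ∈ decomp A) (h : ∀ z ∈ A, σ z - z ∈ A.nonunits) :
    σ ∈ inertia A := by
  refine ⟨⟨σ, hσ⟩, ?_, rfl⟩
  change MulSemiringAction.toRingAut (A.decompositionSubgroup ℚ)
      (IsLocalRing.ResidueField A) ⟨σ, hσ⟩ = 1
  apply RingEquiv.ext
  intro x
  obtain ⟨z, rfl⟩ := IsLocalRing.residue_surjective x
  change (⟨σ, hσ⟩ : A.decompositionSubgroup ℚ) • (IsLocalRing.residue A z) =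
    IsLocalRing.residue A z
  rw [← IsLocalRing.ResidueField.residue_smul, ← sub_eq_zero, ← map_sub,
    IsLocalRing.residue_eq_zero_iff, ← ValuationSubring.coe_mem_nonunits_iff]
  exact h z z.2

/-- membership in the decomposition group from stability -/
lemma mem_decomp {σ : GQ} (h : ∀ z, z ∈ A → σ z ∈ A) (h' : ∀ z, z ∈ A → σ⁻¹ z ∈ A) :
    σ ∈ decomp A := by
  change σ • A = A
  ext z
  rw [ValuationSubring.mem_smul_pointwise_iff_exists]
  constructor
  · rintro ⟨y, hy, rfl⟩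
    exact h y hy
  · intro hz
    refine ⟨σ⁻¹ z, h' z hz, ?_⟩
    exact σ.apply_symm_apply z

lemma int_mem (n : ℤ) : (n : Qbar) ∈ A := by
  exact intCast_mem A n

/-- an integer in the maximal ideal of a place above `l` is divisible by `l` -/
lemma dvd_of_nu {l : ℕ} (hl : l.Prime) (hA : Above l A) {n : ℤ} (hn : (n : Qbar) ∈ A.nonunits) :
    (l : ℤ) ∣ n := by
  by_contra hcon
  have h1 : IsCoprime (l : ℤ) n :=
    (Prime.coprime_iff_not_dvd (Nat.prime_iff_prime_int.1 hl)).2 hcon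
  obtain ⟨a, b, hab⟩ := h1
  have h2 : ((a * l + b * n : ℤ) : Qbar) ∈ A.nonunits := by
    push_cast
    exact add_mem (nu_mul (int_mem a) hA) (nu_mul (int_mem b) hn)
  rw [hab] at h2
  exact one_not_nu (by exact_mod_cast h2)

lemma nu_of_dvd {l : ℕ} (hA : Above l A) {n : ℤ} (hn : (l : ℤ) ∣ n) : (n : Qbar) ∈ A.nonunits := by
  obtain ⟨c, rfl⟩ := hn
  push_cast
  rw [mul_comm]
  exact nu_mul (int_mem c) hA

/-- integral elements belong to every place -/
lemma integral_mem {z : Qbar} (hz : IsIntegral ℤ z) : z ∈ A := by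
  have h1 : IsIntegral A z := hz.tower_top
  obtain ⟨y, hy⟩ := IsIntegrallyClosed.isIntegral_iff.1 h1
  rw [← hy]
  exact y.2

end Pool.Agent.H418.F2
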