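import Mathlib
import Pool.Agent.H418.F2.Loc

/-! The roots of `X ^ 4 - X ^ 3 - 7 X ^ 2 + 2 X + 9` and the action of the Galois group on them. -/

set_option autoImplicit false

open scoped Pointwise Polynomial
open Polynomial

namespace Pool.Agent.H418.F2

/-- The polynomial `z ^ 4 - z ^ 3 - 7 z ^ 2 + 2 z + 9`. -/
def fe {R : Type} [CommRing R] (z : R) : R := z ^ 4 - z ^ 3 - 7 * z ^ 2 + 2 * z + 9

/-- Its derivative. -/
def fd {R : Type} [CommRing R] (z : R) : R := 4 * z ^ 3 - 3 * z ^ 2 - 14 * z + 2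

lemma fe_map {R S : Type} [CommRing R] [CommRing S] (φ : R →+* S) (z : R) :
    φ (fe z) = fe (φ z) := by
  unfold fe
  rw [map_add, map_add, map_sub, map_sub, map_mul, map_mul, map_pow, map_pow, map_pow, map_ofNat,
    map_ofNat, map_ofNat]

lemma fe_intCast {R : Type} [CommRing R] (n : ℤ) : ((fe n : ℤ) : R) = fe (n : R) :=
  fe_map (Int.castRingHom R) n

lemma fd_intCast {R : Type} [CommRing R] (n : ℤ) : ((fd n : ℤ) : R) = fd (n : R) := by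
  simp [fd]

lemma exists_roots : ∃ a : Fin 4 → Qbar, ∀ z : Qbar, fe z = ∏ i, (z - a i) := by
  let q : Qbar[X] := X ^ 4 - X ^ 3 - 7 * X ^ 2 + 2 * X + 9
  have hq : q = X ^ 4 + (- X ^ 3 - 7 * X ^ 2 + 2 * X + 9) := by ring
  have hdeg : (- X ^ 3 - 7 * X ^ 2 + 2 * X + 9 : Qbar[X]).degree < 4 := by
    refine lt_of_le_of_lt (b := 3) ?_ (by norm_num)
    compute_degree!
  have hmonic : q.Monic := by
    rw [hq]
    exact monic_X_pow_add hdeg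
  have hnat : q.natDegree = 4 := by
    change (X ^ 4 - X ^ 3 - 7 * X ^ 2 + 2 * X + 9 : Qbar[X]).natDegree = 4
    compute_degree!
  have hs : q.Splits := IsAlgClosed.splits q
  have hcard : q.roots.card = 4 := by
    rw [← hnat]
    exact hs.natDegree_eq_card_roots.symm
  have hprod : q = (q.roots.map (fun r => X - C r)).prod := hs.eq_prod_roots_of_monic hmonic
  obtain ⟨l, hl⟩ := Quotient.exists_rep q.roots
  change (l : Multiset Qbar) = q.roots at hl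
  rw [← hl] at hcard hprod
  have hlen : l.length = 4 := hcard
  obtain ⟨x0, x1, x2, x3, rfl⟩ : ∃ x0 x1 x2 x3, l = [x0, x1, x2, x3] := by
    match l, hlen with
    | [x0, x1, x2, x3], _ => exact ⟨x0, x1, x2, x3, rfl⟩
  refine ⟨![x0, x1, x2, x3], fun z => ?_⟩
  have h1 := congrArg (Polynomial.eval z) hprod
  rw [Multiset.map_coe, Multiset.prod_coe] at h1
  simp only [List.map_cons, List.map_nil, List.prod_cons, List.prod_nil, mul_one, eval_mul,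
    eval_sub, eval_X, eval_C] at h1
  rw [Fin.prod_univ_four]
  simp only [Matrix.cons_val_zero, Matrix.cons_val_one, Matrix.cons_val]
  have h2 : eval z q = fe z := by
    simp only [q, fe, eval_add, eval_sub, eval_mul, eval_pow, eval_X, eval_ofNat]
  rw [← h2, h1]
  ring

/-- The four roots. -/
noncomputable def a : Fin 4 → Qbar := Classical.choose exists_roots

lemma a_spec (z : Qbar) : fe z = ∏ i, (z - a i) := Classical.choose_spec exists_roots z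

lemma a_root (i : Fin 4) : fe (a i) = 0 := by
  rw [a_spec, Finset.prod_eq_zero (Finset.mem_univ i)]
  exact sub_self _

lemma a_of_root {z : Qbar} (hz : fe z = 0) : ∃ i, z = a i := by
  rw [a_spec, Finset.prod_eq_zero_iff] at hz
  obtain ⟨i, -, hi⟩ := hz
  exact ⟨i, sub_eq_zero.1 hi⟩

lemma vieta : a 0 + a 1 + a 2 + a 3 = 1 ∧
    a 0 * a 1 + a 0 * a 2 + a 0 * a 3 + a 1 * a 2 + a 1 * a 3 + a 2 * a 3 = -7 ∧
    a 0 * a 1 * a 2 + a 0 * a 1 * a 3 + a 0 * a 2 * a 3 + a 1 * a 2 * a 3 = -2 ∧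
    a 0 * a 1 * a 2 * a 3 = 9 := by
  have h0 := a_spec 0
  have h1 := a_spec 1
  have h2 := a_spec (-1)
  have h3 := a_spec 2
  rw [Fin.prod_univ_four] at h0 h1 h2 h3
  unfold fe at h0 h1 h2 h3
  refine ⟨?_, ?_, ?_, ?_⟩
  · linear_combination (1/2) * h0 - (1/2) * h1 - (1/6) * h2 + (1/6) * h3
  · linear_combination h0 - (1/2) * h1 - (1/2) * h2
  · linear_combination (-1/2) * h0 + h1 - (1/3) * h2 - (1/6) * h3
  · linear_combination -h0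

lemma disc_eq : (Matrix.vandermonde a).det ^ 2 = 163 ^ 2 := by
  obtain ⟨h1, h2, h3, h4⟩ := vieta
  have key : (Matrix.vandermonde a).det ^ 2 =
      256 * (a 0 * a 1 * a 2 * a 3) ^ 3
      - 192 * (a 0 + a 1 + a 2 + a 3) * (a 0 * a 1 * a 2 + a 0 * a 1 * a 3 + a 0 * a 2 * a 3 + a 1 * a 2 * a 3) * (a 0 * a 1 * a 2 * a 3) ^ 2
      - 128 * (a 0 * a 1 + a 0 * a 2 + a 0 * a 3 + a 1 * a 2 + a 1 * a 3 + a 2 * a 3) ^ 2 * (a 0 * a 1 * a 2 * a 3) ^ 2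
      + 144 * (a 0 * a 1 + a 0 * a 2 + a 0 * a 3 + a 1 * a 2 + a 1 * a 3 + a 2 * a 3) * (a 0 * a 1 * a 2 + a 0 * a 1 * a 3 + a 0 * a 2 * a 3 + a 1 * a 2 * a 3) ^ 2 * (a 0 * a 1 * a 2 * a 3)
      - 27 * (a 0 * a 1 * a 2 + a 0 * a 1 * a 3 + a 0 * a 2 * a 3 + a 1 * a 2 * a 3) ^ 4
      + 144 * (a 0 + a 1 + a 2 + a 3) ^ 2 * (a 0 * a 1 + a 0 * a 2 + a 0 * a 3 + a 1 * a 2 + a 1 * a 3 + a 2 * a 3) * (a 0 * a 1 * a 2 * a 3) ^ 2
      - 6 * (a 0 + a 1 + a 2 + a 3) ^ 2 * (a 0 * a 1 * a 2 + a 0 * a 1 * a 3 + a 0 * a 2 * a 3 + a 1 * a 2 * a 3) ^ 2 * (a 0 * a 1 * a 2 * a 3)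
      - 80 * (a 0 + a 1 + a 2 + a 3) * (a 0 * a 1 + a 0 * a 2 + a 0 * a 3 + a 1 * a 2 + a 1 * a 3 + a 2 * a 3) ^ 2 * (a 0 * a 1 * a 2 + a 0 * a 1 * a 3 + a 0 * a 2 * a 3 + a 1 * a 2 * a 3) * (a 0 * a 1 * a 2 * a 3)
      + 18 * (a 0 + a 1 + a 2 + a 3) * (a 0 * a 1 + a 0 * a 2 + a 0 * a 3 + a 1 * a 2 + a 1 * a 3 + a 2 * a 3) * (a 0 * a 1 * a 2 + a 0 * a 1 * a 3 + a 0 * a 2 * a 3 + a 1 * a 2 * a 3) ^ 3
      + 16 * (a 0 * a 1 + a 0 * a 2 + a 0 * a 3 + a 1 * a 2 + a 1 * a 3 + a 2 * a 3) ^ 4 * (a 0 * a 1 * a 2 * a 3)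
      - 4 * (a 0 * a 1 + a 0 * a 2 + a 0 * a 3 + a 1 * a 2 + a 1 * a 3 + a 2 * a 3) ^ 3 * (a 0 * a 1 * a 2 + a 0 * a 1 * a 3 + a 0 * a 2 * a 3 + a 1 * a 2 * a 3) ^ 2
      - 27 * (a 0 + a 1 + a 2 + a 3) ^ 4 * (a 0 * a 1 * a 2 * a 3) ^ 2
      + 18 * (a 0 + a 1 + a 2 + a 3) ^ 3 * (a 0 * a 1 + a 0 * a 2 + a 0 * a 3 + a 1 * a 2 + a 1 * a 3 + a 2 * a 3) * (a 0 * a 1 * a 2 + a 0 * a 1 * a 3 + a 0 * a 2 * a 3 + a 1 * a 2 * a 3) * (a 0 * a 1 * a 2 * a 3)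
      - 4 * (a 0 + a 1 + a 2 + a 3) ^ 3 * (a 0 * a 1 * a 2 + a 0 * a 1 * a 3 + a 0 * a 2 * a 3 + a 1 * a 2 * a 3) ^ 3
      - 4 * (a 0 + a 1 + a 2 + a 3) ^ 2 * (a 0 * a 1 + a 0 * a 2 + a 0 * a 3 + a 1 * a 2 + a 1 * a 3 + a 2 * a 3) ^ 3 * (a 0 * a 1 * a 2 * a 3)
      + (a 0 + a 1 + a 2 + a 3) ^ 2 * (a 0 * a 1 + a 0 * a 2 + a 0 * a 3 + a 1 * a 2 + a 1 * a 3 + a 2 * a 3) ^ 2 * (a 0 * a 1 * a 2 + a 0 * a 1 * a 3 + a 0 * a 2 * a 3 + a 1 * a 2 * a 3) ^ 2 := by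
    rw [Matrix.det_vandermonde]
    simp only [Fin.prod_univ_four]
    rw [show (Finset.Ioi (0 : Fin 4)) = {1, 2, 3} from by decide,
      show (Finset.Ioi (1 : Fin 4)) = {2, 3} from by decide,
      show (Finset.Ioi (2 : Fin 4)) = {3} from by decide,
      show (Finset.Ioi (3 : Fin 4)) = ∅ from by decide]
    rw [Finset.prod_insert (by decide), Finset.prod_insert (by decide), Finset.prod_singleton,
      Finset.prod_insert (by decide), Finset.prod_singleton, Finset.prod_singleton,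
      Finset.prod_empty]
    ring
  rw [key, h1, h2, h3, h4]
  norm_num

end Pool.Agent.H418.F2
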