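import Mathlib
import Pool.Agent.H418.F2.Roots

/-! The action of the Galois group on the four roots. -/

set_option autoImplicit false

open scoped Pointwise Polynomial
open Polynomial

namespace Pool.Agent.H418.F2

lemma det_ne : (Matrix.vandermonde a).det ≠ 0 := by
  intro h
  have := disc_eq
  rw [h] at this
  norm_num at this

lemma a_inj : Function.Injective a := Matrix.det_vandermonde_ne_zero_iff.1 det_ne

lemma exists_pf (σ : GQ) (i : Fin 4) : ∃ j, σ (a i) = a j := by
  apply a_of_root
  have h := congrArg σ (a_root i)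
  rw [map_zero] at h
  rw [← h]
  exact (fe_map (σ : Qbar →+* Qbar) (a i)).symm

noncomputable def pf (σ : GQ) (i : Fin 4) : Fin 4 := Classical.choose (exists_pf σ i)

lemma pf_spec (σ : GQ) (i : Fin 4) : σ (a i) = a (pf σ i) := Classical.choose_spec (exists_pf σ i)

lemma pf_mul (σ τ : GQ) (i : Fin 4) : pf (σ * τ) i = pf σ (pf τ i) := by
  apply a_inj
  rw [← pf_spec, ← pf_spec, ← pf_spec]
  rfl

lemma pf_one (i : Fin 4) : pf 1 i = i := by
  apply a_inj
  rw [← pf_spec]
  rfl

/-- The action of the absolute Galois group of `ℚ` on the four roots. -/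
noncomputable def P : GQ →* Equiv.Perm (Fin 4) where
  toFun σ := { toFun := pf σ, invFun := pf σ⁻¹,
               left_inv := fun i => by rw [← pf_mul, inv_mul_cancel, pf_one],
               right_inv := fun i => by rw [← pf_mul, mul_inv_cancel, pf_one] }
  map_one' := Equiv.ext pf_one
  map_mul' σ τ := Equiv.ext (pf_mul σ τ)

lemma P_spec (σ : GQ) (i : Fin 4) : σ (a i) = a (P σ i) := pf_spec σ i

lemma P_eq_iff (σ : GQ) (i : Fin 4) : P σ i = i ↔ σ (a i) = a i := by
  rw [P_spec]
  exact a_inj.eq_iff.symm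

lemma sign_P (σ : GQ) : Equiv.Perm.sign (P σ) = 1 := by
  have h1 : σ (Matrix.vandermonde a).det = ((Equiv.Perm.sign (P σ) : ℤ) : Qbar) *
      (Matrix.vandermonde a).det := by
    rw [← Matrix.det_permute]
    have h2 : σ (Matrix.vandermonde a).det = (σ : Qbar →+* Qbar) (Matrix.vandermonde a).det := rfl
    rw [h2, RingHom.map_det]
    congr 1
    ext i j
    change σ ((Matrix.vandermonde a) i j) = Matrix.vandermonde a (P σ i) j
    rw [Matrix.vandermonde_apply, Matrix.vandermonde_apply, map_pow, P_spec]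
  have h3 : (Matrix.vandermonde a).det = 163 ∨ (Matrix.vandermonde a).det = -163 :=
    sq_eq_sq_iff_eq_or_eq_neg.1 disc_eq
  have h4 : σ (Matrix.vandermonde a).det = (Matrix.vandermonde a).det := by
    rcases h3 with h | h
    · rw [h, map_ofNat]
    · rw [h, map_neg, map_ofNat]
  rw [h4] at h1
  rcases Int.units_eq_one_or (Equiv.Perm.sign (P σ)) with h | h
  · exact h
  · exfalso
    rw [h] at h1
    push_cast at h1
    have h5 : (2 : Qbar) * (Matrix.vandermonde a).det = 0 := by linear_combination h1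
    rcases mul_eq_zero.1 h5 with h6 | h6
    · norm_num at h6
    · exact det_ne h6

/-! ### Integrality -/

lemma a_int (i : Fin 4) : IsIntegral ℤ (a i) := by
  refine ⟨X ^ 4 + (- X ^ 3 - 7 * X ^ 2 + 2 * X + 9), ?_, ?_⟩
  · apply monic_X_pow_add
    refine lt_of_le_of_lt (b := 3) ?_ (by norm_num)
    compute_degree!
  · simp only [eval₂_add, eval₂_sub, eval₂_neg, eval₂_mul, eval₂_pow, eval₂_X, eval₂_ofNat]
    have := a_root i
    unfold fe at this
    linear_combination this

variable {A : ValuationSubring Qbar}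

lemma a_mem (i : Fin 4) : a i ∈ A := integral_mem (a_int i)

lemma sub_mem' (c : ℤ) (i : Fin 4) : (c : Qbar) - a i ∈ A := sub_mem (int_mem c) (a_mem i)

lemma prod_nu {s : Finset (Fin 4)} {f : Fin 4 → Qbar} (hf : ∀ i, f i ∈ A) {i : Fin 4} (hi : i ∈ s)
    (h : f i ∈ A.nonunits) : ∏ j ∈ s, f j ∈ A.nonunits := by
  rw [← Finset.mul_prod_erase s f hi]
  exact nu_mul' h (prod_mem fun j _ => hf j)

lemma nu_of_prod {s : Finset (Fin 4)} {f : Fin 4 → Qbar} (hf : ∀ i, f i ∈ A)
    (h : ∏ j ∈ s, f j ∈ A.nonunits) : ∃ i ∈ s, f i ∈ A.nonunits := by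
  induction s using Finset.induction_on with
  | empty =>
    rw [Finset.prod_empty] at h
    exact absurd h one_not_nu
  | insert i s his ih =>
    rw [Finset.prod_insert his] at h
    rcases nu_of_mul (hf i) (prod_mem fun j _ => hf j) h with h1 | h1
    · exact ⟨i, Finset.mem_insert_self i s, h1⟩
    · obtain ⟨j, hj, hj'⟩ := ih h1
      exact ⟨j, Finset.mem_insert_of_mem hj, hj'⟩

/-- Away from `163` the roots are distinct modulo the maximal ideal. -/
lemma not_nu_sub {l : ℕ} (hl : l.Prime) (hl' : l ≠ 163) (hA : Above l A) {i j : Fin 4}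
    (hij : i ≠ j) : a i - a j ∉ A.nonunits := by
  intro h
  have h1 : (Matrix.vandermonde a).det ∈ A.nonunits := by
    rw [Matrix.det_vandermonde]
    have key : ∀ i j : Fin 4, i < j → a j - a i ∈ A.nonunits →
        ∏ i : Fin 4, ∏ j ∈ Finset.Ioi i, (a j - a i) ∈ A.nonunits := by
      intro i j hij h
      refine prod_nu (f := fun i => ∏ j ∈ Finset.Ioi i, (a j - a i)) ?_ (Finset.mem_univ i) ?_
      · intro i
        exact prod_mem fun j _ => sub_mem (a_mem j) (a_mem i)
      · exact prod_nu (f := fun j => a j - a i) (fun j => sub_mem (a_mem j) (a_mem i))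
          (Finset.mem_Ioi.2 hij) h
    rcases lt_or_gt_of_ne hij with h2 | h2
    · refine key i j h2 ?_
      have h3 : a j - a i = -(a i - a j) := by ring
      rw [h3]
      exact neg_mem h
    · exact key j i h2 h
  have h2 : ((26569 : ℤ) : Qbar) ∈ A.nonunits := by
    have e : ((26569 : ℤ) : Qbar) = (Matrix.vandermonde a).det * (Matrix.vandermonde a).det := by
      rw [← sq, disc_eq]
      norm_num
    rw [e]
    exact nu_mul (nu_mem h1) h1
  have h3 := dvd_of_nu hl hA h2
  have h4 : l ∣ 163 ^ 2 := by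
    norm_num
    exact_mod_cast h3
  have h5 := hl.dvd_of_dvd_pow h4
  exact hl' ((Nat.prime_dvd_prime_iff_eq hl (by norm_num)).1 h5)

/-- The action is unramified away from `163`. -/
lemma P_unramified {l : ℕ} (hl : l.Prime) (hl' : l ≠ 163) (hA : Above l A) {σ : GQ}
    (hσ : σ ∈ inertia A) : P σ = 1 := by
  ext1 i
  by_contra hcon
  have h1 := inertia_sub hσ (a_mem (A := A) i)
  rw [P_spec] at h1
  exact not_nu_sub hl hl' hA hcon h1

lemma fd_eq (z : Qbar) : fd z = ∑ i, ∏ j ∈ Finset.univ.erase i, (z - a j) := by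
  obtain ⟨h1, h2, h3, h4⟩ := vieta
  rw [Fin.sum_univ_four]
  rw [show (Finset.univ.erase (0 : Fin 4)) = {1, 2, 3} from by decide,
    show (Finset.univ.erase (1 : Fin 4)) = {0, 2, 3} from by decide,
    show (Finset.univ.erase (2 : Fin 4)) = {0, 1, 3} from by decide,
    show (Finset.univ.erase (3 : Fin 4)) = {0, 1, 2} from by decide]
  repeat rw [Finset.prod_insert (by decide), Finset.prod_insert (by decide), Finset.prod_singleton]
  unfold fd
  linear_combination (3 * z ^ 2) * h1 - (2 * z) * h2 + h3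

/-- A simple root modulo `l` in `ℤ` gives a root fixed by the decomposition group. -/
lemma exists_fixed {l : ℕ} (hl : l.Prime) (hA : Above l A) (c : ℤ) (h1 : (l : ℤ) ∣ fe c)
    (h2 : ¬ (l : ℤ) ∣ fd c) : ∃ i, ∀ σ ∈ decomp A, P σ i = i := by
  have h3 : ∏ i, ((c : Qbar) - a i) ∈ A.nonunits := by
    rw [← a_spec, ← fe_intCast]
    exact nu_of_dvd hA h1
  obtain ⟨i, -, hi⟩ := nu_of_prod (fun i => sub_mem' c i) h3
  have huniq : ∀ j, (c : Qbar) - a j ∈ A.nonunits → j = i := by
    intro j hj
    by_contra hne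
    apply h2
    apply dvd_of_nu hl hA
    rw [fd_intCast, fd_eq]
    refine sum_mem fun k _ => ?_
    by_cases hk : k = i
    · refine prod_nu (f := fun j => (c : Qbar) - a j) (fun i => sub_mem' c i) (i := j) ?_ hj
      rw [hk]
      exact Finset.mem_erase.2 ⟨hne, Finset.mem_univ _⟩
    · exact prod_nu (f := fun j => (c : Qbar) - a j) (fun i => sub_mem' c i) (i := i)
        (Finset.mem_erase.2 ⟨fun h => hk h.symm, Finset.mem_univ _⟩) hi
  refine ⟨i, fun σ hσ => ?_⟩
  apply huniq
  rw [← P_spec]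
  have h4 := decomp_nu hσ hi
  rw [map_sub, map_intCast] at h4
  exact h4

/-- At a multiple root modulo `l` in `ℤ` at least two roots meet. -/
lemma exists_two {l : ℕ} (hA : Above l A) (c : ℤ) (h1 : (l : ℤ) ∣ fe c)
    (h2 : (l : ℤ) ∣ fd c) : ∃ i j, i ≠ j ∧ (c : Qbar) - a i ∈ A.nonunits ∧
      (c : Qbar) - a j ∈ A.nonunits := by
  have h3 : ∏ i, ((c : Qbar) - a i) ∈ A.nonunits := by
    rw [← a_spec, ← fe_intCast]
    exact nu_of_dvd hA h1
  obtain ⟨i, -, hi⟩ := nu_of_prod (fun i => sub_mem' c i) h3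
  have h4 : fd (c : Qbar) ∈ A.nonunits := by
    rw [← fd_intCast]
    exact nu_of_dvd hA h2
  rw [fd_eq, ← Finset.add_sum_erase _ _ (Finset.mem_univ i)] at h4
  have h5 : ∑ k ∈ Finset.univ.erase i, ∏ j ∈ Finset.univ.erase k, ((c : Qbar) - a j) ∈
      A.nonunits := by
    refine sum_mem fun k hk => ?_
    exact prod_nu (f := fun j => (c : Qbar) - a j) (fun i => sub_mem' c i) (i := i)
      (Finset.mem_erase.2 ⟨fun h => (Finset.mem_erase.1 hk).1 h.symm, Finset.mem_univ _⟩) hi
  have h6 : ∏ j ∈ Finset.univ.erase i, ((c : Qbar) - a j) ∈ A.nonunits := by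
    have := sub_mem h4 h5
    rwa [add_sub_cancel_right] at this
  obtain ⟨j, hj, hj'⟩ := nu_of_prod (fun i => sub_mem' c i) h6
  exact ⟨i, j, fun h => (Finset.mem_erase.1 hj).1 h.symm, hi, hj'⟩

/-! ### Complex conjugation -/

lemma exists_real_root {u v : ℝ} (huv : u < v) (h : fe u * fe v < 0) : ∃ t, u < t ∧ t < v ∧
    fe t = 0 := by
  have hcont : Continuous (fun t : ℝ => fe t) := by
    unfold fe
    fun_prop
  have hne : fe u ≠ 0 ∧ fe v ≠ 0 := by
    constructor
    · intro h0; rw [h0, zero_mul] at h; exact lt_irrefl _ h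
    · intro h0; rw [h0, mul_zero] at h; exact lt_irrefl _ h
  have h0 : (0 : ℝ) ∈ Set.uIcc (fe u) (fe v) := by
    rcases mul_neg_iff.1 h with ⟨h1, h2⟩ | ⟨h1, h2⟩
    · exact Set.mem_uIcc.2 (Or.inr ⟨h2.le, h1.le⟩)
    · exact Set.mem_uIcc.2 (Or.inl ⟨h1.le, h2.le⟩)
  obtain ⟨t, ht, ht0⟩ := intermediate_value_uIcc (a := u) (b := v) hcont.continuousOn h0
  rw [Set.uIcc_of_le huv.le] at ht
  have hu : t ≠ u := by rintro rfl; exact hne.1 ht0
  have hv : t ≠ v := by rintro rfl; exact hne.2 ht0
  exact ⟨t, lt_of_le_of_ne ht.1 (Ne.symm hu), lt_of_le_of_ne ht.2 hv, ht0⟩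

/-- All the complex roots are real. -/
lemma real_root {z : ℂ} (hz : fe z = 0) : (starRingEnd ℂ) z = z := by
  obtain ⟨t1, h1, h1', e1⟩ := exists_real_root (u := -2) (v := -3/2) (by norm_num)
    (by unfold fe; norm_num)
  obtain ⟨t2, h2, h2', e2⟩ := exists_real_root (u := -3/2) (v := 0) (by norm_num)
    (by unfold fe; norm_num)
  obtain ⟨t3, h3, h3', e3⟩ := exists_real_root (u := 0) (v := 2) (by norm_num)
    (by unfold fe; norm_num)
  obtain ⟨t4, h4, h4', e4⟩ := exists_real_root (u := 2) (v := 3) (by norm_num)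
    (by unfold fe; norm_num)
  let S : Finset ℂ := {(t1 : ℂ), (t2 : ℂ), (t3 : ℂ), (t4 : ℂ)}
  have hS : S.card = 4 := by
    have h12 : t1 ≠ t2 := by intro e; linarith
    have h13 : t1 ≠ t3 := by intro e; linarith
    have h14 : t1 ≠ t4 := by intro e; linarith
    have h23 : t2 ≠ t3 := by intro e; linarith
    have h24 : t2 ≠ t4 := by intro e; linarith
    have h34 : t3 ≠ t4 := by intro e; linarith
    simp only [S]
    rw [Finset.card_insert_of_notMem, Finset.card_insert_of_notMem, Finset.card_insert_of_notMem,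
      Finset.card_singleton]
    · simp only [Finset.mem_singleton, Complex.ofReal_inj]
      exact h34
    · simp only [Finset.mem_insert, Finset.mem_singleton, Complex.ofReal_inj]
      tauto
    · simp only [Finset.mem_insert, Finset.mem_singleton, Complex.ofReal_inj]
      tauto
  let q : ℂ[X] := X ^ 4 - X ^ 3 - 7 * X ^ 2 + 2 * X + 9
  have hq4 : q.natDegree = 4 := by
    simp only [q]
    compute_degree!
  have hq0 : q ≠ 0 := by
    intro h
    rw [h] at hq4
    simp at hq4
  have hev : ∀ z : ℂ, eval z q = fe z := by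
    intro z
    simp only [q, fe, eval_add, eval_sub, eval_mul, eval_pow, eval_X, eval_ofNat]
  have hsub : S.val ≤ q.roots := by
    rw [Multiset.le_iff_subset S.nodup]
    intro w hw
    rw [mem_roots hq0, IsRoot.def, hev]
    have hcast : ∀ t : ℝ, fe t = 0 → fe (t : ℂ) = 0 := by
      intro t ht
      have := congrArg (fun x : ℝ => (x : ℂ)) ht
      unfold fe at this ⊢
      push_cast at this
      exact this
    have hw' : w ∈ S := hw
    simp only [S, Finset.mem_insert, Finset.mem_singleton] at hw'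
    rcases hw' with rfl | rfl | rfl | rfl
    · exact hcast _ e1
    · exact hcast _ e2
    · exact hcast _ e3
    · exact hcast _ e4
  have heq : S.val = q.roots := by
    refine Multiset.eq_of_le_of_card_le hsub ?_
    calc q.roots.card ≤ q.natDegree := card_roots' q
      _ = 4 := hq4
      _ = S.val.card := hS.symm
  have hzm : z ∈ q.roots := by
    rw [mem_roots hq0, IsRoot.def, hev]
    exact hz
  rw [← heq] at hzm
  have hz' : z ∈ S := hzm
  simp only [S, Finset.mem_insert, Finset.mem_singleton] at hz'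
  rcases hz' with rfl | rfl | rfl | rfl <;> exact Complex.conj_ofReal _

lemma P_conj {c : GQ} (hc : IsComplexConj c) : P c = 1 := by
  obtain ⟨ι, hι⟩ := hc
  ext1 i
  change P c i = i
  rw [P_eq_iff]
  apply ι.injective
  rw [hι]
  apply real_root
  rw [← fe_map ι, a_root, map_zero]

/-! ### No rational root -/

lemma no_int_root (n : ℤ) : fe n ≠ 0 := by
  intro h
  have h1 := congrArg (fun m : ℤ => (m : ZMod 5)) h
  simp only [fe_intCast, Int.cast_zero] at h1
  revert h1
  generalize (n : ZMod 5) = t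
  revert t
  unfold fe
  decide

lemma not_fixed (i : Fin 4) : ¬ ∀ σ : GQ, P σ i = i := by
  intro h
  have h1 : a i ∈ Set.range (algebraMap ℚ Qbar) := by
    rw [InfiniteGalois.mem_range_algebraMap_iff_fixed]
    intro σ
    exact (P_eq_iff σ i).1 (h σ)
  obtain ⟨q, hq⟩ := h1
  have h2 : IsIntegral ℤ q := by
    have h3 := a_int i
    rw [← hq] at h3
    exact (isIntegral_algebraMap_iff (algebraMap ℚ Qbar).injective).mp h3
  obtain ⟨n, hn⟩ := IsIntegrallyClosed.isIntegral_iff.1 h2
  apply no_int_root n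
  have h4 := a_root i
  rw [← hq, ← hn] at h4
  have h5 : ((fe n : ℤ) : Qbar) = 0 := by
    rw [fe_intCast]
    simpa using h4
  exact_mod_cast h5

end Pool.Agent.H418.F2
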