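import Mathlib
import Pool.Agent.H418.F2.PermRep

/-! Places of `Qbar` and maximal ideals of the ring of all algebraic integers. -/

set_option autoImplicit false

open scoped Pointwise NumberField

namespace Pool.Agent.H418.F2

variable {A : ValuationSubring Qbar}

/-- Every element of a place above a prime is a quotient of two algebraic integers, the
denominator being a unit at the place. -/
lemma exists_frac {l : ℕ} (hl : l.Prime) (hA : Above l A) {z : Qbar} (hz : z ∈ A) :
    ∃ b s : Qbar, IsIntegral ℤ b ∧ IsIntegral ℤ s ∧ s ∉ A.nonunits ∧ z * s = b := by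
  let K := IntermediateField.adjoin ℚ {z}
  have hzint : IsIntegral ℚ z := Algebra.IsIntegral.isIntegral z
  have : FiniteDimensional ℚ K := IntermediateField.adjoin.finiteDimensional hzint
  have : NumberField K := { to_charZero := inferInstance, to_finiteDimensional := inferInstance }
  have hcoe : ∀ w : 𝓞 K, IsIntegral ℤ ((w : K) : Qbar) := by
    intro w
    have h1 : IsIntegral ℤ (w : K) := w.2
    exact h1.map (IsScalarTower.toAlgHom ℤ K Qbar)
  let P' : Ideal (𝓞 K) :=
    { carrier := {w | ((w : K) : Qbar) ∈ A.nonunits}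
      add_mem' := by
        intro x y hx hy
        change (((x + y : 𝓞 K) : K) : Qbar) ∈ A.nonunits
        push_cast
        exact add_mem hx hy
      zero_mem' := by
        change (((0 : 𝓞 K) : K) : Qbar) ∈ A.nonunits
        push_cast
        exact zero_mem _
      smul_mem' := by
        intro x y hy
        change (((x * y : 𝓞 K) : K) : Qbar) ∈ A.nonunits
        push_cast
        exact nu_mul (integral_mem (hcoe x)) hy }
  have hP'mem : ∀ w : 𝓞 K, w ∈ P' ↔ ((w : K) : Qbar) ∈ A.nonunits := fun w => Iff.rfl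
  have hprime : P'.IsPrime := by
    constructor
    · rw [Ne, Ideal.eq_top_iff_one, hP'mem]
      push_cast
      exact one_not_nu
    · intro x y hxy
      rw [hP'mem] at hxy
      push_cast at hxy
      exact nu_of_mul (integral_mem (hcoe x)) (integral_mem (hcoe y)) hxy
  have hne : P' ≠ ⊥ := by
    intro h
    have h1 : ((l : 𝓞 K)) ∈ P' := by
      rw [hP'mem]
      push_cast
      exact hA
    rw [h, Ideal.mem_bot] at h1
    exact hl.ne_zero (by exact_mod_cast h1)
  have := IsLocalization.AtPrime.isDiscreteValuationRing_of_dedekind_domain (𝓞 K) hne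
    (Localization.AtPrime P')
  let z' : K := ⟨z, IntermediateField.mem_adjoin_simple_self ℚ z⟩
  obtain ⟨x, y, hy, hxy⟩ := IsFractionRing.div_surjective (A := 𝓞 K) z'
  have hy0 : (y : 𝓞 K) ≠ 0 := nonZeroDivisors.ne_zero hy
  have hyQ : ((y : K) : Qbar) ≠ 0 := by
    intro h
    apply hy0
    have h1 : (y : K) = 0 := by exact_mod_cast h
    exact_mod_cast h1
  have hzxy : z * ((y : K) : Qbar) = ((x : K) : Qbar) := by
    have h1 : z = ((z' : K) : Qbar) := rfl
    rw [h1, ← hxy]
    push_cast
    change ((x : K) : Qbar) / ((y : K) : Qbar) * ((y : K) : Qbar) = _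
    rw [div_mul_cancel₀ _ hyQ]
  obtain ⟨c, hc⟩ := ValuationRing.cond (algebraMap (𝓞 K) (Localization.AtPrime P') x)
    (algebraMap (𝓞 K) (Localization.AtPrime P') y)
  obtain ⟨w, s, rfl⟩ := IsLocalization.exists_mk'_eq P'.primeCompl c
  have hinj : Function.Injective (algebraMap (𝓞 K) (Localization.AtPrime P')) :=
    IsLocalization.injective _ (Ideal.primeCompl_le_nonZeroDivisors P')
  have hs : ((((s : 𝓞 K) : K)) : Qbar) ∉ A.nonunits := s.2
  have hsne : ((((s : 𝓞 K) : K)) : Qbar) ≠ 0 := by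
    intro h
    apply hs
    rw [h]
    exact zero_mem _
  have hmk : ∀ u v : 𝓞 K, algebraMap (𝓞 K) (Localization.AtPrime P') u *
      IsLocalization.mk' (Localization.AtPrime P') w s = algebraMap _ _ v → u * w = v * s := by
    intro u v h
    rw [IsLocalization.mul_mk'_eq_mk'_of_mul, IsLocalization.mk'_eq_iff_eq_mul, ← map_mul] at h
    exact hinj h
  rcases hc with hc | hc
  · have h1 := hmk _ _ hc
    have h2 : ((x : K) : Qbar) * ((w : K) : Qbar) = ((y : K) : Qbar) * (((s : 𝓞 K) : K) : Qbar) := by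
      exact_mod_cast congrArg (fun t : 𝓞 K => ((t : K) : Qbar)) h1
    have h3 : z * ((w : K) : Qbar) = (((s : 𝓞 K) : K) : Qbar) := by
      apply mul_left_cancel₀ hyQ
      rw [← h2, ← hzxy]
      ring
    refine ⟨(((s : 𝓞 K) : K) : Qbar), ((w : K) : Qbar), hcoe _, hcoe _, ?_, h3⟩
    intro h4
    apply hs
    rw [← h3]
    exact nu_mul hz h4
  · have h1 := hmk _ _ hc
    have h2 : ((y : K) : Qbar) * ((w : K) : Qbar) = ((x : K) : Qbar) * (((s : 𝓞 K) : K) : Qbar) := by
      exact_mod_cast congrArg (fun t : 𝓞 K => ((t : K) : Qbar)) h1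
    refine ⟨((w : K) : Qbar), (((s : 𝓞 K) : K) : Qbar), hcoe _, hcoe _, hs, ?_⟩
    apply mul_left_cancel₀ hyQ
    rw [h2, ← hzxy]
    ring

/-- An automorphism acting trivially on the algebraic integers modulo the maximal ideal of a place
belongs to the inertia group. -/
lemma mem_inertia_of_int {l : ℕ} (hl : l.Prime) (hA : Above l A) {σ : GQ}
    (h : ∀ b : Qbar, IsIntegral ℤ b → σ b - b ∈ A.nonunits) : σ ∈ inertia A := by
  have hint : ∀ (τ : GQ) (b : Qbar), IsIntegral ℤ b → IsIntegral ℤ (τ b) := by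
    intro τ b hb
    exact hb.map ((τ : Qbar →ₐ[ℚ] Qbar).restrictScalars ℤ)
  have hunit : ∀ s : Qbar, s ∈ A → s ∉ A.nonunits → s ≠ 0 ∧ s⁻¹ ∈ A := by
    intro s hs hs'
    rw [nu_iff] at hs'
    push Not at hs'
    exact hs'
  have key : ∀ τ : GQ, (∀ b : Qbar, IsIntegral ℤ b → τ b - b ∈ A.nonunits) →
      ∀ z ∈ A, τ z ∈ A ∧ τ z - z ∈ A.nonunits := by
    intro τ hτ z hz
    obtain ⟨b, s, hb, hs, hsn, hzs⟩ := exists_frac hl hA hz
    have hsA : s ∈ A := integral_mem hs
    have hbA : b ∈ A := integral_mem hb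
    have hτs : τ s ∉ A.nonunits := by
      intro h1
      apply hsn
      have h2 := sub_mem h1 (hτ s hs)
      rwa [sub_sub_cancel] at h2
    have hτsA : τ s ∈ A := integral_mem (hint τ s hs)
    obtain ⟨hs0, hsi⟩ := hunit s hsA hsn
    obtain ⟨ht0, hti⟩ := hunit (τ s) hτsA hτs
    have e1 : z = b * s⁻¹ := by rw [← hzs, mul_assoc, mul_inv_cancel₀ hs0, mul_one]
    have e2 : τ z = τ b * (τ s)⁻¹ := by rw [e1, map_mul, map_inv₀]
    constructor
    · rw [e2]
      exact mul_mem (integral_mem (hint τ b hb)) hti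
    · have e3 : τ z - z = (s⁻¹ * (τ s)⁻¹) * (s * (τ b - b) - b * (τ s - s)) := by
        rw [e2, e1]
        field_simp
        ring
      rw [e3]
      exact nu_mul (mul_mem hsi hti) (sub_mem (nu_mul hsA (hτ b hb)) (nu_mul hbA (hτ s hs)))
  have hinv : ∀ b : Qbar, IsIntegral ℤ b → σ⁻¹ b - b ∈ A.nonunits := by
    intro b hb
    have h1 := h _ (hint σ⁻¹ b hb)
    have h2 : σ (σ⁻¹ b) = b := σ.apply_symm_apply b
    rw [h2] at h1
    have h3 : σ⁻¹ b - b = -(b - σ⁻¹ b) := by ring
    rw [h3]
    exact neg_mem h1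
  exact mem_inertia (mem_decomp (fun z hz => (key σ h z hz).1) (fun z hz => (key _ hinv z hz).1))
    (fun z hz => (key σ h z hz).2)

end Pool.Agent.H418.F2
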