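import Mathlib
import Pool.Agent.H418.F2.Frac

/-! The inertia group of a place of `Qbar` maps onto the inertia groups of finite levels. -/

set_option autoImplicit false

open scoped Pointwise NumberField
open NumberField

namespace Pool.Agent.H418.F2

/-- The maximal ideal of the ring of all algebraic integers at a place. -/
def idealOf (A : ValuationSubring Qbar) : Ideal (𝓞 Qbar) where
  carrier := {b | (b : Qbar) ∈ A.nonunits}
  add_mem' := by
    intro x y hx hy
    change ((x + y : 𝓞 Qbar) : Qbar) ∈ A.nonunits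
    push_cast
    exact add_mem hx hy
  zero_mem' := by
    change ((0 : 𝓞 Qbar) : Qbar) ∈ A.nonunits
    push_cast
    exact zero_mem _
  smul_mem' := by
    intro x y hy
    change ((x * y : 𝓞 Qbar) : Qbar) ∈ A.nonunits
    push_cast
    exact nu_mul (integral_mem x.isIntegral_coe) hy

variable {A : ValuationSubring Qbar}

lemma mem_idealOf (b : 𝓞 Qbar) : b ∈ idealOf A ↔ (b : Qbar) ∈ A.nonunits := Iff.rfl

instance idealOf_isPrime : (idealOf A).IsPrime := by
  constructor
  · rw [Ne, Ideal.eq_top_iff_one, mem_idealOf]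
    push_cast
    exact one_not_nu
  · intro x y hxy
    rw [mem_idealOf] at hxy
    push_cast at hxy
    exact nu_of_mul (integral_mem x.isIntegral_coe) (integral_mem y.isIntegral_coe) hxy

section

variable (L : IntermediateField ℚ Qbar)

/-- The absolute Galois group of `L`. -/
abbrev GL' : Type := Qbar ≃ₐ[L] Qbar

theorem coe_smulL (σ : GL' L) (x : 𝓞 Qbar) : ((σ • x : 𝓞 Qbar) : Qbar) = σ (x : Qbar) := rfl

theorem coe_smulQ (σ : GQ) (x : 𝓞 Qbar) : ((σ • x : 𝓞 Qbar) : Qbar) = σ (x : Qbar) := rfl

instance inst_comm : SMulCommClass (GL' L) (𝓞 L) (𝓞 Qbar) where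
  smul_comm σ a x := by
    apply RingOfIntegers.ext
    rw [coe_smulL]
    simp only [Algebra.smul_def, map_mul]
    exact congrArg₂ (· * ·) (σ.commutes (a : L)) rfl

instance inst_inv : Algebra.IsInvariant (𝓞 L) (𝓞 Qbar) (GL' L) where
  isInvariant x hx := by
    have h : (x : Qbar) ∈ Set.range (algebraMap L Qbar) := by
      rw [InfiniteGalois.mem_range_algebraMap_iff_fixed]
      intro σ
      have := congrArg (fun y : 𝓞 Qbar => (y : Qbar)) (hx σ)
      exact this
    obtain ⟨k, hk⟩ := h
    have hint : IsIntegral ℤ k := by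
      have h1 : IsIntegral ℤ (x : Qbar) := x.isIntegral_coe
      rw [← hk] at h1
      exact (isIntegral_algebraMap_iff (algebraMap L Qbar).injective).mp h1
    refine ⟨⟨k, hint⟩, ?_⟩
    apply RingOfIntegers.ext
    exact hk

instance inst_top : TopologicalSpace (𝓞 Qbar) := ⊥

instance inst_disc : DiscreteTopology (𝓞 Qbar) := ⟨rfl⟩

instance inst_cont : ContinuousSMul (GL' L) (𝓞 Qbar) := by
  rw [continuousSMul_iff_stabilizer_isOpen]
  intro x
  have h := stabilizer_isOpen_of_isIntegral (K := L) (L := Qbar) (x : Qbar)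
  have e : (MulAction.stabilizer (GL' L) x : Set (GL' L)) =
      (MulAction.stabilizer (GL' L) (x : Qbar) : Set (GL' L)) := by
    ext σ
    simp only [SetLike.mem_coe, MulAction.mem_stabilizer_iff]
    constructor
    · intro h
      have := congrArg (fun y : 𝓞 Qbar => (y : Qbar)) h
      exact this
    · intro h
      exact RingOfIntegers.ext h
  rw [e]
  exact h

theorem exists_smulL (Q Q' : Ideal (𝓞 Qbar)) [Q.IsPrime] [Q'.IsPrime]
    (h : Q.under (𝓞 L) = Q'.under (𝓞 L)) : ∃ σ : GL' L, Q' = σ • Q :=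
  Algebra.IsInvariant.exists_smul_of_under_eq_of_profinite (A := 𝓞 L) (G := GL' L) Q Q' h

theorem surjL (Q : Ideal (𝓞 Qbar)) [Q.IsPrime] :
    Function.Surjective (Ideal.Quotient.stabilizerHom Q (Q.under (𝓞 L)) (GL' L)) :=
  Ideal.Quotient.stabilizerHom_surjective_of_profinite (G := GL' L) (Q.under (𝓞 L)) Q

end

end Pool.Agent.H418.F2
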