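import Mathlib
import Pool.Agent.H418.F2.Inert

/-! The inertia group of a place of `Qbar` maps onto the inertia groups of finite levels. -/

set_option autoImplicit false

open scoped Pointwise NumberField
open NumberField

namespace Pool.Agent.H418.F2

variable {A : ValuationSubring Qbar}

theorem inertia_surj (L : IntermediateField ℚ Qbar) {l : ℕ} (hl : l.Prime)
    (hA : Above l A) (τ : L ≃ₐ[ℚ] L)
    (hτ : ∀ z : 𝓞 L, ((τ (z : L) : L) : Qbar) - ((z : L) : Qbar) ∈ A.nonunits) :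
    ∃ σ ∈ inertia A, ∀ z : L, σ (z : Qbar) = ((τ z : L) : Qbar) := by
  let Q := idealOf A
  have hm : ∀ b : 𝓞 Qbar, b ∈ Q ↔ (b : Qbar) ∈ A.nonunits := fun b => Iff.rfl
  let σ₀ : GQ := τ.liftNormal Qbar
  have hσ₀ : ∀ z : L, σ₀ (z : Qbar) = ((τ z : L) : Qbar) := fun z =>
    AlgEquiv.liftNormal_commutes τ Qbar z
  have hσ₀' : ∀ z : L, σ₀⁻¹ (z : Qbar) = ((τ.symm z : L) : Qbar) := by
    intro z
    have h1 := hσ₀ (τ.symm z)
    rw [τ.apply_symm_apply] at h1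
    rw [← h1]
    exact σ₀.symm_apply_apply _
  have hint : ∀ z : 𝓞 L, IsIntegral ℤ (τ.symm (z : L)) := fun z =>
    z.isIntegral_coe.map ((τ.symm : L →ₐ[ℚ] L).restrictScalars ℤ)
  -- the translate of `Q` has the same restriction to `L`
  have hprime : (σ₀ • Q).IsPrime := (Ideal.IsPrime.smul_iff σ₀).2 inferInstance
  have hunder : (σ₀ • Q).under (𝓞 L) = Q.under (𝓞 L) := by
    ext z
    rw [Ideal.under_def, Ideal.under_def, Ideal.mem_comap, Ideal.mem_comap,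
      Ideal.mem_pointwise_smul_iff_inv_smul_mem]
    have e1 : ((σ₀⁻¹ • (algebraMap (𝓞 L) (𝓞 Qbar) z) : 𝓞 Qbar) : Qbar) =
        ((τ.symm (z : L) : L) : Qbar) := by
      rw [coe_smulQ]
      exact hσ₀' (z : L)
    rw [hm, hm, e1]
    change _ ↔ ((z : L) : Qbar) ∈ A.nonunits
    have h2 := hτ ⟨τ.symm (z : L), hint z⟩
    have h3 : ((τ (τ.symm (z : L)) : L) : Qbar) - ((τ.symm (z : L) : L) : Qbar) ∈ A.nonunits := h2
    rw [τ.apply_symm_apply] at h3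
    constructor
    · intro h4
      have h5 := add_mem h3 h4
      rwa [sub_add_cancel] at h5
    · intro h4
      have h5 := sub_mem h4 h3
      rwa [sub_sub_cancel] at h5
  obtain ⟨g, hg⟩ := exists_smulL L (σ₀ • Q) Q hunder
  let gQ : GQ := g.restrictScalars ℚ
  have hgQ : ∀ z : Qbar, gQ z = g z := fun z => rfl
  let σ₁ : GQ := gQ * σ₀
  have hσ₁ : ∀ z : L, σ₁ (z : Qbar) = ((τ z : L) : Qbar) := by
    intro z
    change gQ (σ₀ (z : Qbar)) = _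
    rw [hσ₀, hgQ]
    exact g.commutes (τ z)
  have hgsmul : ∀ b : 𝓞 Qbar, gQ • b = g • b := fun b => RingOfIntegers.ext rfl
  have hstab : σ₁ • Q = Q := by
    conv_rhs => rw [hg]
    ext b
    change b ∈ (gQ * σ₀) • Q ↔ _
    rw [mul_smul, Ideal.mem_pointwise_smul_iff_inv_smul_mem,
      Ideal.mem_pointwise_smul_iff_inv_smul_mem (a := g)]
    have e : gQ⁻¹ • b = g⁻¹ • b := RingOfIntegers.ext rfl
    rw [e]
  let s₁ : MulAction.stabilizer GQ Q := ⟨σ₁, hstab⟩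
  let φ₀ := Ideal.Quotient.stabilizerHom Q (Q.under ℤ) GQ s₁
  have hφ₀ : ∀ b : 𝓞 Qbar, φ₀ (Ideal.Quotient.mk Q b) = Ideal.Quotient.mk Q (σ₁ • b) :=
    fun b => rfl
  let φ : (𝓞 Qbar ⧸ Q) ≃ₐ[𝓞 L ⧸ Q.under (𝓞 L)] (𝓞 Qbar ⧸ Q) :=
    AlgEquiv.ofRingEquiv (f := φ₀.toRingEquiv) (by
      intro r
      obtain ⟨z, rfl⟩ := Ideal.Quotient.mk_surjective r
      have e1 : algebraMap (𝓞 L ⧸ Q.under (𝓞 L)) (𝓞 Qbar ⧸ Q)
          (Ideal.Quotient.mk (Q.under (𝓞 L)) z) =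
          Ideal.Quotient.mk Q (algebraMap (𝓞 L) (𝓞 Qbar) z) := rfl
      rw [e1]
      change φ₀ (Ideal.Quotient.mk Q _) = _
      rw [hφ₀, Ideal.Quotient.eq]
      rw [hm]
      have e2 : ((σ₁ • (algebraMap (𝓞 L) (𝓞 Qbar) z) : 𝓞 Qbar) : Qbar) =
        ((τ (z : L) : L) : Qbar) := by
        rw [coe_smulQ]
        exact hσ₁ (z : L)
      have e3 : ((σ₁ • (algebraMap (𝓞 L) (𝓞 Qbar) z) - algebraMap (𝓞 L) (𝓞 Qbar) z : 𝓞 Qbar) : Qbar)
          = ((τ (z : L) : L) : Qbar) - ((z : L) : Qbar) := by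
        rw [← e2]
        rfl
      rw [e3]
      exact hτ z)
  obtain ⟨h, hh⟩ := surjL L Q φ
  have hh' : ∀ b : 𝓞 Qbar, (h : GL' L) • b - σ₁ • b ∈ Q := by
    intro b
    rw [← Ideal.Quotient.eq]
    exact DFunLike.congr_fun hh (Ideal.Quotient.mk Q b)
  let hQ' : GQ := (h : GL' L).restrictScalars ℚ
  refine ⟨hQ'⁻¹ * σ₁, ?_, ?_⟩
  · apply mem_inertia_of_int hl hA
    intro b hb
    let b' : 𝓞 Qbar := ⟨b, hb⟩
    have h1 := hh' b'
    have h2 : (h : GL' L)⁻¹ • ((h : GL' L) • b' - σ₁ • b') ∈ Q := by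
      have h3 : (h : GL' L)⁻¹ • Q = Q := (h⁻¹).2
      have h3' := Ideal.smul_mem_pointwise_smul ((h : GL' L)⁻¹) _ _ h1
      rwa [h3] at h3'
    rw [smul_sub, inv_smul_smul, hm] at h2
    have h4 : (((b' - (h : GL' L)⁻¹ • σ₁ • b' : 𝓞 Qbar)) : Qbar) = b - (hQ'⁻¹ * σ₁) b := rfl
    rw [h4] at h2
    have h5 := neg_mem h2
    rwa [neg_sub] at h5
  · intro z
    change hQ'⁻¹ (σ₁ (z : Qbar)) = _
    rw [hσ₁]
    have h6 : (h : GL' L) ((τ z : L) : Qbar) = ((τ z : L) : Qbar) := (h : GL' L).commutes (τ z)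
    have h7 : hQ' ((τ z : L) : Qbar) = ((τ z : L) : Qbar) := h6
    conv_lhs => rw [← h7]
    exact hQ'.symm_apply_apply _

end Pool.Agent.H418.F2
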