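import Mathlib
import Pool.Agent.H418.F2.Surj

/-! The action on the roots is ramified at `163`. -/

set_option autoImplicit false

open scoped Pointwise NumberField
open NumberField

namespace Pool.Agent.H418.F2

variable {A : ValuationSubring Qbar}

/-- The splitting field. -/
noncomputable def LL : IntermediateField ℚ Qbar := IntermediateField.adjoin ℚ (Set.range a)

lemma a_mem_LL (i : Fin 4) : a i ∈ LL := IntermediateField.subset_adjoin _ _ ⟨i, rfl⟩

instance LL_fin : FiniteDimensional ℚ LL := by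
  unfold LL
  have : Finite (Set.range a) := inferInstance
  exact IntermediateField.finiteDimensional_adjoin (S := Set.range a)
    (fun x _ => Algebra.IsIntegral.isIntegral x)

lemma LL_normal' : @Normal ℚ LL _ _ (IntermediateField.algebra' LL) := by
  rw [IntermediateField.normal_iff_forall_map_le']
  intro σ
  unfold LL
  rw [IntermediateField.adjoin_map, IntermediateField.adjoin_le_iff]
  rintro _ ⟨_, ⟨i, rfl⟩, rfl⟩
  change σ (a i) ∈ _
  rw [P_spec]
  exact a_mem_LL _

instance LL_normal : Normal ℚ LL := by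
  have e : (IntermediateField.algebra' LL : Algebra ℚ LL) = DivisionRing.toRatAlgebra :=
    Subsingleton.elim _ _
  have h := LL_normal'
  rw [e] at h
  exact h

instance LL_galois : IsGalois ℚ LL := ⟨⟩

instance LL_nf : NumberField LL := { to_charZero := inferInstance, to_finiteDimensional := inferInstance }

/-- The roots as integers of the splitting field. -/
noncomputable def al (i : Fin 4) : 𝓞 LL := ⟨⟨a i, a_mem_LL i⟩, by
  have h := a_int i
  have e : a i = algebraMap LL Qbar ⟨a i, a_mem_LL i⟩ := rfl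
  rw [e] at h
  exact (isIntegral_algebraMap_iff (algebraMap LL Qbar).injective).mp h⟩

lemma al_coe (i : Fin 4) : (((al i : 𝓞 LL) : LL) : Qbar) = a i := rfl

lemma coe_inj' {x y : 𝓞 LL} (h : ((x : LL) : Qbar) = ((y : LL) : Qbar)) : x = y := by
  apply RingOfIntegers.ext
  exact Subtype.ext h

theorem exists_moving (hA : Above 163 A) : ∃ σ ∈ inertia A, P σ ≠ 1 := by
  have h163 : Nat.Prime 163 := by norm_num
  let PL : Ideal (𝓞 LL) := (idealOf A).under (𝓞 LL)
  have hPL : ∀ x : 𝓞 LL, x ∈ PL ↔ ((x : LL) : Qbar) ∈ A.nonunits := fun x => Iff.rfl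
  have hmem : ((163 : ℤ) : 𝓞 LL) ∈ PL := by
    rw [hPL]
    push_cast
    exact_mod_cast hA
  let pz : Ideal ℤ := Ideal.span {(163 : ℤ)}
  have hpz0 : pz ≠ ⊥ := by
    rw [Ne, Ideal.span_singleton_eq_bot]
    norm_num
  have hpzp : pz.IsPrime :=
    (Ideal.span_singleton_prime (by norm_num)).2 (Nat.prime_iff_prime_int.1 h163)
  have hpzm : pz.IsMaximal := Ring.DimensionLEOne.maximalOfPrime hpz0 hpzp
  have hover : pz = PL.under ℤ := by
    apply hpzm.eq_of_le (Ideal.IsPrime.ne_top inferInstance)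
    rw [Ideal.span_le, Set.singleton_subset_iff]
    change algebraMap ℤ (𝓞 LL) 163 ∈ PL
    exact_mod_cast hmem
  have hlies : PL.LiesOver pz := ⟨hover⟩
  -- `163 ∈ PL ^ 2`
  obtain ⟨i, j, hij, hi, hj⟩ := exists_two hA 36 (by decide) (by decide)
  have hi' : ((36 : ℤ) : 𝓞 LL) - al i ∈ PL := by
    rw [hPL]
    push_cast
    rw [al_coe]
    exact_mod_cast hi
  have hj' : ((36 : ℤ) : 𝓞 LL) - al j ∈ PL := by
    rw [hPL]
    push_cast
    rw [al_coe]
    exact_mod_cast hj
  have hprod : fe ((36 : ℤ) : 𝓞 LL) = ∏ k, (((36 : ℤ) : 𝓞 LL) - al k) := by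
    apply coe_inj'
    have h1 := a_spec ((36 : ℤ) : Qbar)
    rw [Fin.prod_univ_four] at h1 ⊢
    unfold fe at h1 ⊢
    push_cast
    simp only [al_coe]
    push_cast at h1
    exact h1
  have hsq : fe ((36 : ℤ) : 𝓞 LL) ∈ PL ^ 2 := by
    rw [hprod, ← Finset.mul_prod_erase _ _ (Finset.mem_univ i),
      ← Finset.mul_prod_erase _ _ (Finset.mem_erase.2 ⟨hij.symm, Finset.mem_univ j⟩), ← mul_assoc,
      sq]
    exact Ideal.mul_mem_right _ _ (Ideal.mul_mem_mul hi' hj')
  have h163sq : ((163 : ℤ) : 𝓞 LL) ∈ PL ^ 2 := by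
    have e : ((163 : ℤ) : 𝓞 LL) = 106 * fe ((36 : ℤ) : 𝓞 LL) -
        6479 * (((163 : ℤ) : 𝓞 LL) * ((163 : ℤ) : 𝓞 LL)) := by
      unfold fe
      push_cast
      norm_num
    rw [e]
    refine sub_mem (Ideal.mul_mem_left _ _ hsq) (Ideal.mul_mem_left _ _ ?_)
    rw [sq]
    exact Ideal.mul_mem_mul hmem hmem
  have hmap : pz.map (algebraMap ℤ (𝓞 LL)) ≤ PL ^ 2 := by
    rw [Ideal.map_span, Set.image_singleton, Ideal.span_le, Set.singleton_subset_iff]
    exact_mod_cast h163sq
  have he' : Ideal.ramificationIdx' pz PL ≠ 1 :=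
    (Ideal.ramificationIdx'_ne_one_iff (hmap.trans (Ideal.pow_le_self two_ne_zero))).2 hmap
  have he : PL.ramificationIdx ℤ ≠ 1 := by
    rw [← Ideal.ramificationIdx'_eq_ramificationIdx (p := pz) (q := PL) hpz0]
    exact he'
  have hcard : Nat.card (PL.inertia (LL ≃ₐ[ℚ] LL)) ≠ 1 := by
    rw [Ideal.card_inertia_eq_ramificationIdxIn (G := (LL ≃ₐ[ℚ] LL)) pz PL,
      Ideal.ramificationIdxIn_eq_ramificationIdx pz PL (LL ≃ₐ[ℚ] LL)]
    exact he
  have hne : PL.inertia (LL ≃ₐ[ℚ] LL) ≠ ⊥ := by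
    intro h
    apply hcard
    rw [h]
    exact Subgroup.card_bot
  obtain ⟨⟨τ, hτ⟩, hτ0⟩ := Subgroup.ne_bot_iff_exists_ne_one.1 hne
  have hτ1 : τ ≠ 1 := fun h' => hτ0 (Subtype.ext h')
  have hτ' : ∀ z : 𝓞 LL, ((τ (z : LL) : LL) : Qbar) - ((z : LL) : Qbar) ∈ A.nonunits := by
    intro z
    exact hτ z
  obtain ⟨σ, hσ, hστ⟩ := inertia_surj LL h163 hA τ hτ'
  refine ⟨σ, hσ, fun hP => hτ1 ?_⟩
  have hfix : ∀ z ∈ LL, σ z = z := by
    intro z hz
    unfold LL at hz
    induction hz using IntermediateField.adjoin_induction with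
    | mem x hx =>
      obtain ⟨i, rfl⟩ := hx
      rw [P_spec, hP]
      rfl
    | algebraMap x => exact σ.commutes x
    | add x y _ _ hx hy => rw [map_add, hx, hy]
    | inv x _ hx => rw [map_inv₀, hx]
    | mul x y _ _ hx hy => rw [map_mul, hx, hy]
  ext z
  rw [← hστ]
  exact hfix z z.2

end Pool.Agent.H418.F2
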