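import Mathlib
import Pool.Agent.H418.F2.Ram

/-! The isomorphism of `S_4` with `PGL_2(F_3)`. -/

set_option autoImplicit false

open Matrix
open scoped MatrixGroups

namespace Pool.Agent.H418.F2

/-- The four points of the projective line over `F_3`. -/
def vec (i : Fin 4) : Fin 2 → ZMod 3 := ![![0, 1], ![1, 1], ![2, 1], ![1, 0]] i

/-- The determinant of two vectors. -/
def dd (u w : Fin 2 → ZMod 3) : ZMod 3 := u 0 * w 1 - u 1 * w 0

/-- A matrix inducing the permutation `π` of the four points. -/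
def M (π : Equiv.Perm (Fin 4)) : Matrix (Fin 2) (Fin 2) (ZMod 3) :=
  !![dd (vec (π 1)) (vec (π 0)) * vec (π 3) 0, dd (vec (π 3)) (vec (π 1)) * vec (π 0) 0;
     dd (vec (π 1)) (vec (π 0)) * vec (π 3) 1, dd (vec (π 3)) (vec (π 1)) * vec (π 0) 1]

lemma M_det : ∀ π : Equiv.Perm (Fin 4), (M π).det ≠ 0 := by
  simp only [Matrix.det_fin_two]
  decide +kernel

lemma M_mul : ∀ π τ : Equiv.Perm (Fin 4), ∃ c : ZMod 3, c ≠ 0 ∧ M (π * τ) = c • (M π * M τ) := by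
  decide +kernel

lemma M_vec : ∀ (π : Equiv.Perm (Fin 4)) (i : Fin 4), ∃ c : ZMod 3, c ≠ 0 ∧
    (M π).mulVec (vec i) = c • vec (π i) := by
  decide +kernel

/-- The nilpotent matrix with kernel spanned by `vec i`. -/
def nil (i : Fin 4) : Matrix (Fin 2) (Fin 2) (ZMod 3) :=
  !![-(vec i 0 * vec i 1), vec i 0 * vec i 0; -(vec i 1 * vec i 1), vec i 0 * vec i 1]

lemma nil_sq : ∀ i : Fin 4, nil i * nil i = 0 := by
  decide +kernel

lemma M_unip' : ∀ (i : Fin 4) (π : Equiv.Perm (Fin 4)),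
    (Equiv.Perm.sign π = 1 ∧ π i = i ∧ π ≠ 1) →
    ∃ c n : ZMod 3, c ≠ 0 ∧ n ≠ 0 ∧ c • M π = 1 + n • nil i := by
  decide +kernel

lemma M_unip (i : Fin 4) (π : Equiv.Perm (Fin 4)) (h1 : Equiv.Perm.sign π = 1) (h2 : π i = i)
    (h3 : π ≠ 1) : ∃ c n : ZMod 3, c ≠ 0 ∧ n ≠ 0 ∧ c • M π = 1 + n • nil i :=
  M_unip' i π ⟨h1, h2, h3⟩

lemma three_cycle : ∀ (i : Fin 4) (π₀ π : Equiv.Perm (Fin 4)), Equiv.Perm.sign π₀ = 1 → π₀ i = i →
    π₀ ≠ 1 → Equiv.Perm.sign π = 1 → π i = i → π = 1 ∨ π = π₀ ∨ π = π₀ * π₀ := by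
  decide +kernel

/-- A matrix of determinant `1` with first column `vec i`. -/
def gi (i : Fin 4) : Matrix (Fin 2) (Fin 2) (ZMod 3) :=
  ![!![0, 2; 1, 0], !![1, 0; 1, 1], !![2, 1; 1, 1], !![1, 0; 0, 1]] i

lemma gi_det : ∀ i : Fin 4, (gi i).det ≠ 0 := by
  simp only [Matrix.det_fin_two]
  decide +kernel

lemma M_borel : ∀ (i : Fin 4) (π : Equiv.Perm (Fin 4)), Equiv.Perm.sign π = 1 → π i = i →
    ∃ c n : ZMod 3, c ≠ 0 ∧ c • (M π * gi i) = gi i * !![1, n; 0, 1] := by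
  decide +kernel

lemma vec_indep : ∀ i j : Fin 4, dd (vec i) (vec j) = 0 → i = j := by
  decide +kernel

lemma vec_ne : ∀ i : Fin 4, vec i 0 ≠ 0 ∨ vec i 1 ≠ 0 := by
  decide +kernel

end Pool.Agent.H418.F2
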