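import Mathlib
import Pool.Agent.H418.F2.Pgl

/-! The homomorphism `GQ → PGL_2(k) ^ m` and its properties. -/

set_option autoImplicit false

open Matrix
open scoped MatrixGroups

namespace Pool.Agent.H418.F2

noncomputable section

variable (k : Type) [Field k] [CharP k 3]

/-- The inclusion of the prime field. -/
def em : ZMod 3 →+* k := ZMod.castHom (dvd_refl 3) k

lemma em_ne {c : ZMod 3} (hc : c ≠ 0) : em k c ≠ 0 := fun h => hc ((em k).injective (by rw [h, map_zero]))

lemma map_det_ne {N : Matrix (Fin 2) (Fin 2) (ZMod 3)} (h : N.det ≠ 0) :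
    ((em k).mapMatrix N).det ≠ 0 := by
  rw [← RingHom.map_det]
  exact em_ne k h

/-- The invertible matrix over `k` given by an invertible matrix over `F_3`. -/
def glN (N : Matrix (Fin 2) (Fin 2) (ZMod 3)) (h : N.det ≠ 0) : GL (Fin 2) k :=
  GeneralLinearGroup.mkOfDetNeZero ((em k).mapMatrix N) (map_det_ne k h)

lemma glN_val (N : Matrix (Fin 2) (Fin 2) (ZMod 3)) (h : N.det ≠ 0) :
    (glN k N h : Matrix (Fin 2) (Fin 2) k) = (em k).mapMatrix N := rfl

omit [CharP k 3] in
lemma mk_eq_of_smul {g h : GL (Fin 2) k} {c : k} (hc : c ≠ 0)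
    (e : (g : Matrix (Fin 2) (Fin 2) k) = c • (h : Matrix (Fin 2) (Fin 2) k)) :
    ProjGenLinGroup.mk g = ProjGenLinGroup.mk h := by
  rw [ProjGenLinGroup.mk_eq_mk_iff]
  refine ⟨Units.mk0 c⁻¹ (inv_ne_zero hc), Units.ext ?_⟩
  rw [Units.val_mul, Matrix.GeneralLinearGroup.coe_scalar, Matrix.scalar_apply,
    ← Matrix.smul_one_eq_diagonal, Matrix.mul_smul, Matrix.mul_one, e, smul_smul, Units.val_mk0,
    inv_mul_cancel₀ hc, one_smul]

lemma map_smul' (c : ZMod 3) (N : Matrix (Fin 2) (Fin 2) (ZMod 3)) :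
    (em k).mapMatrix (c • N) = em k c • (em k).mapMatrix N := by
  ext i j
  simp [RingHom.mapMatrix_apply]

/-- The homomorphism `S_4 → PGL_2(k)`. -/
def phi : Equiv.Perm (Fin 4) →* PGL(2, k) :=
  MonoidHom.mk' (fun π => ProjGenLinGroup.mk (glN k (M π) (M_det π))) (by
    intro π τ
    obtain ⟨c, hc, e⟩ := M_mul π τ
    rw [← map_mul]
    refine mk_eq_of_smul k (em_ne k hc) ?_
    rw [Units.val_mul, glN_val, glN_val, glN_val, e, map_smul', map_mul])

lemma phi_apply (π : Equiv.Perm (Fin 4)) :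
    phi k π = ProjGenLinGroup.mk (glN k (M π) (M_det π)) := rfl

/-- The component of our homomorphism. -/
def rr : GQ →* PGL(2, k) := (phi k).comp P

omit [CharP k 3] in
/-- The diagonal homomorphism `(r, …, r)` to `PGL_2(k) ^ m`. -/
def diagonal (m : ℕ) {k : Type} [Field k] (r : GQ →* PGL(2, k)) : GQ →* GD m k where
  toFun σ := fun _ => r σ
  map_one' := by
    funext j
    exact map_one r
  map_mul' σ τ := by
    funext j
    exact map_mul r σ τ

/-- The homomorphism `GQ → PGL_2(k) ^ m`. -/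
def RR (m : ℕ) : GQ →* GD m k := diagonal m (rr k)

lemma RR_apply (m : ℕ) (σ : GQ) (j : Fin m) : RR k m σ j = phi k (P σ) := rfl

lemma RR_of_P {m : ℕ} {σ : GQ} (h : P σ = 1) : RR k m σ = 1 := by
  funext j
  rw [RR_apply, h, map_one]
  rfl

lemma RR_of_P_eq {m : ℕ} {σ τ : GQ} (h : P σ = P τ) : RR k m σ = RR k m τ := by
  funext j
  rw [RR_apply, RR_apply, h]

lemma cast_fe (c : ℤ) (l : ℕ) (h : (l : ℤ) ∣ fe c) : (l : ℤ) ∣ fe c := h

/-- Steinberg at `163`. -/
lemma stein (m : ℕ) : IsSteinbergAt 163 (RR k m) := by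
  intro A hA
  have h163 : Nat.Prime 163 := by norm_num
  obtain ⟨i, hi⟩ := exists_fixed h163 hA 56 (by decide) (by decide)
  obtain ⟨σ₀, hσ₀, hne⟩ := exists_moving hA
  obtain ⟨c, n, hc, hn, e⟩ := M_unip i (P σ₀) (sign_P σ₀) (hi σ₀ (inertia_decomp hσ₀)) hne
  have hdet : (c • M (P σ₀)).det ≠ 0 := by
    rw [Matrix.det_smul]
    exact mul_ne_zero (pow_ne_zero _ hc) (M_det _)
  have hval : (glN k (c • M (P σ₀)) hdet : Matrix (Fin 2) (Fin 2) k) - 1 =
      (em k).mapMatrix (n • nil i) := by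
    rw [glN_val, e, map_add, map_one, add_sub_cancel_left]
  refine ⟨fun _ => glN k (c • M (P σ₀)) hdet, fun _ => ?_, fun _ => ?_, ?_⟩
  · rw [hval, sq, ← map_mul, Matrix.smul_mul, Matrix.mul_smul, nil_sq, smul_zero, smul_zero,
      map_zero]
  · rw [hval]
    intro h
    have h1 : ∀ p q, (n • nil i) p q = 0 := by
      intro p q
      apply (em k).injective
      rw [map_zero]
      exact congrFun (congrFun h p) q
    have h2 : nil i 0 1 = 0 := by
      have := h1 0 1
      rw [Matrix.smul_apply, smul_eq_mul] at this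
      exact (mul_eq_zero.1 this).resolve_left hn
    have h3 : nil i 1 0 = 0 := by
      have := h1 1 0
      rw [Matrix.smul_apply, smul_eq_mul] at this
      exact (mul_eq_zero.1 this).resolve_left hn
    have h4 : ∀ i, nil i 0 1 = 0 → nil i 1 0 = 0 → False := by decide +kernel
    exact h4 i h2 h3
  · have hmk : cls (fun _ : Fin m => glN k (c • M (P σ₀)) hdet) = RR k m σ₀ := by
      funext j
      change ProjGenLinGroup.mk (glN k (c • M (P σ₀)) hdet) = RR k m σ₀ j
      rw [RR_apply, phi_apply]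
      refine mk_eq_of_smul k (em_ne k hc) ?_
      rw [glN_val, glN_val, map_smul']
    rw [hmk]
    apply le_antisymm
    · rintro _ ⟨σ, hσ, rfl⟩
      rcases three_cycle i (P σ₀) (P σ) (sign_P σ₀) (hi σ₀ (inertia_decomp hσ₀)) hne (sign_P σ)
        (hi σ (inertia_decomp hσ)) with h | h | h
      · rw [RR_of_P k h]
        exact one_mem _
      · rw [RR_of_P_eq k h]
        exact Subgroup.mem_zpowers _
      · rw [← map_mul] at h
        rw [RR_of_P_eq k h, map_mul]
        exact mul_mem (Subgroup.mem_zpowers _) (Subgroup.mem_zpowers _)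
    · rw [Subgroup.zpowers_le]
      exact ⟨σ₀, hσ₀, rfl⟩

lemma omega_sq (σ : GQ) : (omega 3 k σ) ^ 2 = 1 := by
  have h : ∀ y : (ZMod 3)ˣ, y ^ 2 = 1 := by decide
  unfold omega
  rw [MonoidHom.comp_apply, ← map_pow, h, map_one]

/-- Nearly ordinary at `3`. -/
lemma ordinary {m : ℕ} (x : Fin m → ℤ) (hx : ∀ j, Even (x j)) : IsNearlyOrdinary 3 x (RR k m) := by
  intro A hA
  obtain ⟨i, hi⟩ := exists_fixed Nat.prime_three hA 0 (by decide) (by decide)
  refine ⟨fun _ => glN k (gi i) (gi_det i), fun σ hσ => ?_⟩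
  obtain ⟨c, n, hc, e⟩ := M_borel i (P σ) (sign_P σ) (hi σ hσ)
  have hdet : (!![1, n; 0, 1] : Matrix (Fin 2) (Fin 2) (ZMod 3)).det ≠ 0 := by
    rw [Matrix.det_fin_two_of, mul_zero, sub_zero, mul_one]
    exact one_ne_zero
  have hb : ∀ p q, (glN k !![1, n; 0, 1] hdet : Matrix (Fin 2) (Fin 2) k) p q =
      em k ((!![1, n; 0, 1] : Matrix (Fin 2) (Fin 2) (ZMod 3)) p q) := fun p q => rfl
  refine ⟨fun _ => glN k !![1, n; 0, 1] hdet, fun j => ?_, ?_, fun hσ' j => ?_⟩
  · rw [hb]
    simp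
  · funext j
    change RR k m σ j = ProjGenLinGroup.mk (glN k (gi i) (gi_det i)) *
      ProjGenLinGroup.mk (glN k !![1, n; 0, 1] hdet) *
      (ProjGenLinGroup.mk (glN k (gi i) (gi_det i)))⁻¹
    rw [← map_inv, ← map_mul, ← map_mul, RR_apply, phi_apply]
    have h1 : em k c⁻¹ ≠ 0 := em_ne k (inv_ne_zero hc)
    refine mk_eq_of_smul k h1 ?_
    have h2 : (glN k (M (P σ)) (M_det _)) * glN k (gi i) (gi_det i) * (glN k (gi i) (gi_det i))⁻¹ =
        glN k (M (P σ)) (M_det _) := mul_inv_cancel_right _ _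
    rw [← h2, Units.val_mul, Units.val_mul _ (glN k (gi i) (gi_det i))⁻¹, ← Matrix.smul_mul]
    congr 1
    rw [Units.val_mul, Units.val_mul, glN_val, glN_val, glN_val, ← map_mul, ← map_mul, ← e,
      map_smul', smul_smul, ← map_mul, inv_mul_cancel₀ hc, map_one, one_smul]
  · refine ⟨1, ?_, ?_⟩
    · rw [hb]
      obtain ⟨t, ht⟩ := hx j
      have h3 : (omega 3 k σ) ^ (x j) = 1 := by
        rw [ht, _root_.zpow_add, ← mul_zpow, ← sq, omega_sq, _root_.one_zpow]
      rw [h3]
      simp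
    · rw [hb]
      simp

omit [CharP k 3] in
lemma Ad_one_of {g : GL (Fin 2) k} (h : ProjGenLinGroup.mk g = 1) : Ad g = LinearMap.id := by
  rw [← map_one (ProjGenLinGroup.mk (n := Fin 2) (R := k)), ProjGenLinGroup.mk_eq_mk_iff] at h
  obtain ⟨u, hu⟩ := h
  have hg : g = (Matrix.GeneralLinearGroup.scalar (Fin 2) u)⁻¹ := eq_inv_of_mul_eq_one_left hu
  have hg' : (g : Matrix (Fin 2) (Fin 2) k) = ((u⁻¹ : kˣ) : k) • (1 : Matrix (Fin 2) (Fin 2) k) := by
    rw [hg, ← map_inv, Matrix.GeneralLinearGroup.coe_scalar, Matrix.scalar_apply,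
      Matrix.smul_one_eq_diagonal]
  have hginv : ((g⁻¹ : GL (Fin 2) k) : Matrix (Fin 2) (Fin 2) k) =
      (u : k) • (1 : Matrix (Fin 2) (Fin 2) k) := by
    rw [hg, inv_inv, Matrix.GeneralLinearGroup.coe_scalar, Matrix.scalar_apply,
      Matrix.smul_one_eq_diagonal]
  have h2 : conjMat g = LinearMap.id := by
    ext1 X
    simp only [conjMat, LinearMap.comp_apply, LinearMap.mulLeft_apply, LinearMap.mulRight_apply,
      hg', hginv, Matrix.mul_smul, Matrix.smul_mul, Matrix.mul_one, Matrix.one_mul, smul_smul,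
      LinearMap.id_apply]
    rw [Units.mul_inv, one_smul]
  refine LinearMap.ext fun y => ?_
  obtain ⟨X, rfl⟩ := Submodule.mkQ_surjective (scal k) y
  change Submodule.mapQ (scal k) (scal k) (conjMat g) _ (Submodule.Quotient.mk X) = _
  rw [Submodule.mapQ_apply, h2]
  rfl

omit [CharP k 3] in
lemma finrank_Lie : Module.finrank k (LiePGL k) = 3 := by
  have h1 := Submodule.finrank_quotient_add_finrank
    (Submodule.span k {(1 : Matrix (Fin 2) (Fin 2) k)})
  rw [finrank_span_singleton one_ne_zero, Module.finrank_matrix] at h1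
  simp at h1
  exact h1

instance fin_Lie : FiniteDimensional k (LiePGL k) :=
  inferInstanceAs (FiniteDimensional k (Matrix (Fin 2) (Fin 2) k ⧸ scal k))

lemma cont_RR (m : ℕ) : IsOpen ((RR k m).ker : Set GQ) := by
  have h1 := IntermediateField.fixingSubgroup_isOpen LL
  refine Subgroup.isOpen_mono (H₁ := LL.fixingSubgroup) ?_ h1
  intro σ hσ
  rw [MonoidHom.mem_ker]
  apply RR_of_P
  ext1 i
  change P σ i = i
  rw [P_eq_iff]
  rw [IntermediateField.mem_fixingSubgroup_iff] at hσ
  exact hσ _ (a_mem_LL i)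

/-- There is a place above every prime. -/
lemma exists_above {l : ℕ} (hl : l.Prime) : ∃ A : ValuationSubring Qbar, Above l A := by
  let R : Subring Qbar := (Int.castRingHom Qbar).range
  let lR : R := ⟨(l : Qbar), ⟨(l : ℤ), by simp⟩⟩
  have hne : (Ideal.span {lR} : Ideal R) ≠ ⊤ := by
    intro h
    rw [Ideal.span_singleton_eq_top] at h
    obtain ⟨y, hy⟩ := isUnit_iff_exists_inv.1 h
    obtain ⟨y, ⟨n, rfl⟩⟩ := y
    have h1 : (l : Qbar) * ((n : ℤ) : Qbar) = 1 := congrArg Subtype.val hy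
    have h2 : (l : ℤ) * n = 1 := by exact_mod_cast h1
    have h3 : (l : ℤ) ∣ 1 := ⟨n, h2.symm⟩
    have h4 : l ∣ 1 := by exact_mod_cast h3
    exact hl.one_lt.ne' (Nat.dvd_one.1 h4)
  obtain ⟨B, -, hB⟩ := Ideal.image_subset_nonunits_valuationSubring _ hne
  exact ⟨B, hB ⟨lR, Ideal.mem_span_singleton_self lR, rfl⟩⟩

/-- Absolute irreducibility. -/
lemma irred (m : ℕ) : IsAbsolutelyIrreducible (RR k m) := by
  intro K _ _ j v hv hstab
  have h163 : Nat.Prime 163 := by norm_num
  obtain ⟨A, hA⟩ := exists_above h163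
  obtain ⟨i, hi⟩ := exists_fixed h163 hA 56 (by decide) (by decide)
  obtain ⟨σ₀, hσ₀, hne⟩ := exists_moving hA
  obtain ⟨c, n, hc, hn, e⟩ := M_unip i (P σ₀) (sign_P σ₀) (hi σ₀ (inertia_decomp hσ₀)) hne
  let ε : ZMod 3 →+* K := (algebraMap k K).comp (em k)
  have hε : ∀ {c : ZMod 3}, c ≠ 0 → ε c ≠ 0 := fun {c} hc h => hc (ε.injective (by rw [h, map_zero]))
  have hmat : ∀ (N : Matrix (Fin 2) (Fin 2) (ZMod 3)) (h : N.det ≠ 0),
      (glN k N h : Matrix (Fin 2) (Fin 2) k).map (algebraMap k K) = N.map ε := fun N h => rfl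
  have hst : ∀ σ, ∃ c : K, ((M (P σ)).map ε).mulVec v = c • v := by
    intro σ
    have := hstab σ (fun _ => glN k (M (P σ)) (M_det _)) rfl
    rwa [hmat] at this
  -- the stable line is the one fixed by inertia at 163
  set w : Fin 2 → ZMod 3 := vec i with hw
  have hline : v 0 * ε (w 1) - v 1 * ε (w 0) = 0 := by
    obtain ⟨d, hd⟩ := hst σ₀
    have e1 : ∀ p q, ε c * ε (M (P σ₀) p q) = ε ((1 : Matrix (Fin 2) (Fin 2) (ZMod 3)) p q) +
        ε n * ε (nil i p q) := by
      intro p q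
      have := congrFun (congrFun e p) q
      rw [Matrix.smul_apply, Matrix.add_apply, Matrix.smul_apply, smul_eq_mul, smul_eq_mul] at this
      rw [← map_mul, this, map_add, map_mul]
    have h0 := congrFun hd 0
    have h1 := congrFun hd 1
    rw [Matrix.mulVec, dotProduct, Fin.sum_univ_two, Matrix.map_apply, Matrix.map_apply,
      Pi.smul_apply, smul_eq_mul] at h0 h1
    have e00 := e1 0 0
    have e01 := e1 0 1
    have e10 := e1 1 0
    have e11 := e1 1 1
    rw [Matrix.one_apply_eq, map_one] at e00 e11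
    rw [Matrix.one_apply_ne (by decide), map_zero, zero_add] at e01 e10
    have n00 : ε (nil i 0 0) = -(ε (w 0) * ε (w 1)) := by
      rw [← map_mul, ← map_neg]; rfl
    have n01 : ε (nil i 0 1) = ε (w 0) * ε (w 0) := by
      rw [← map_mul]; rfl
    have n10 : ε (nil i 1 0) = -(ε (w 1) * ε (w 1)) := by
      rw [← map_mul, ← map_neg]; rfl
    have n11 : ε (nil i 1 1) = ε (w 0) * ε (w 1) := by
      rw [← map_mul]; rfl
    rw [n00] at e00
    rw [n01] at e01
    rw [n10] at e10
    rw [n11] at e11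
    have hn' : ε n ≠ 0 := hε hn
    -- with `D = v 0 * w 1 - v 1 * w 0`: `(c d - 1) v 0 = - n w 0 D`, `(c d - 1) v 1 = - n w 1 D`
    have k0 : (ε c * d - 1) * v 0 = - (ε n * ε (w 0) * (v 0 * ε (w 1) - v 1 * ε (w 0))) := by
      linear_combination (-ε c) * h0 + v 0 * e00 + v 1 * e01
    have k1 : (ε c * d - 1) * v 1 = - (ε n * ε (w 1) * (v 0 * ε (w 1) - v 1 * ε (w 0))) := by
      linear_combination (-ε c) * h1 + v 0 * e10 + v 1 * e11
    by_contra hD
    have k2 : (ε c * d - 1) * (v 0 * ε (w 1) - v 1 * ε (w 0)) = 0 := by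
      linear_combination ε (w 1) * k0 - ε (w 0) * k1
    have k3 : ε c * d - 1 = 0 := (mul_eq_zero.1 k2).resolve_right hD
    rw [k3, zero_mul] at k0 k1
    have k4 : ε (w 0) = 0 := by
      have h5 := neg_eq_zero.1 k0.symm
      exact (mul_eq_zero.1 ((mul_eq_zero.1 h5).resolve_right hD)).resolve_left hn'
    have k5 : ε (w 1) = 0 := by
      have h5 := neg_eq_zero.1 k1.symm
      exact (mul_eq_zero.1 ((mul_eq_zero.1 h5).resolve_right hD)).resolve_left hn'
    rcases vec_ne i with h | h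
    · exact hε h k4
    · exact hε h k5
  -- hence `v` is a multiple of `w`
  obtain ⟨t, ht0, htv⟩ : ∃ t : K, t ≠ 0 ∧ ∀ q, v q = t * ε (w q) := by
    rcases vec_ne i with h | h
    · refine ⟨v 0 / ε (w 0), ?_, ?_⟩
      · intro h0
        rw [div_eq_zero_iff] at h0
        rcases h0 with h0 | h0
        · rw [h0, zero_mul, zero_sub, neg_eq_zero] at hline
          have h1 : v 1 = 0 := (mul_eq_zero.1 hline).resolve_right (hε h)
          apply hv
          funext q
          fin_cases q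
          · exact h0
          · exact h1
        · exact hε h h0
      · intro q
        fin_cases q
        · exact (div_mul_cancel₀ _ (hε h)).symm
        · change v 1 = v 0 / ε (w 0) * ε (w 1)
          rw [div_mul_eq_mul_div, eq_div_iff (hε h)]
          linear_combination -hline
    · refine ⟨v 1 / ε (w 1), ?_, ?_⟩
      · intro h0
        rw [div_eq_zero_iff] at h0
        rcases h0 with h0 | h0
        · rw [h0, zero_mul, sub_zero] at hline
          have h1 : v 0 = 0 := (mul_eq_zero.1 hline).resolve_right (hε h)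
          apply hv
          funext q
          fin_cases q
          · exact h1
          · exact h0
        · exact hε h h0
      · intro q
        fin_cases q
        · change v 0 = v 1 / ε (w 1) * ε (w 0)
          rw [div_mul_eq_mul_div, eq_div_iff (hε h)]
          linear_combination hline
        · exact (div_mul_cancel₀ _ (hε h)).symm
  -- so every `σ` fixes the root
  apply not_fixed i
  intro σ
  obtain ⟨d, hd⟩ := hst σ
  obtain ⟨b, hb, hbv⟩ := M_vec (P σ) i
  have h1 : ∀ q, ε (b * vec (P σ i) q) * t = d * (t * ε (w q)) := by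
    intro q
    have h2 := congrFun hd q
    rw [Pi.smul_apply, smul_eq_mul, htv q] at h2
    rw [← h2]
    have h3 := congrFun hbv q
    rw [Pi.smul_apply, smul_eq_mul] at h3
    rw [← h3, Matrix.mulVec, dotProduct, Fin.sum_univ_two, Matrix.mulVec, dotProduct,
      Fin.sum_univ_two, htv 0, htv 1, Matrix.map_apply, Matrix.map_apply, map_add, map_mul, map_mul]
    ring
  have h2 : ε (b * dd (vec (P σ i)) (vec i)) = 0 := by
    have e0 := h1 0
    have e1 := h1 1
    apply (mul_eq_zero.1 (?_ : ε (b * dd (vec (P σ i)) (vec i)) * t = 0)).resolve_right ht0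
    unfold dd
    have h5 : b * (vec (P σ i) 0 * vec i 1 - vec (P σ i) 1 * vec i 0) =
        (b * vec (P σ i) 0) * w 1 - (b * vec (P σ i) 1) * w 0 := by
      rw [hw]; ring
    rw [h5, map_sub, map_mul, map_mul _ (b * vec (P σ i) 1)]
    linear_combination ε (w 1) * e0 - ε (w 0) * e1
  have h3 : b * dd (vec (P σ i)) (vec i) = 0 := ε.injective (by rw [h2, map_zero])
  exact vec_indep _ _ ((mul_eq_zero.1 h3).resolve_left hb)

end

end Pool.Agent.H418.F2
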