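import Mathlib
import Pool.Agent.H418.F2.Main

/-! When the oddness condition on the trace holds. -/

set_option autoImplicit false

open Matrix
open scoped MatrixGroups

namespace Pool.Agent.H418.F2

noncomputable section

variable {k : Type} [Field k]

lemma exists_conj : ∃ c : GQ, IsComplexConj c := by
  let ι : Qbar →ₐ[ℚ] ℂ := IsAlgClosed.lift
  let _ : Algebra Qbar ℂ := ι.toRingHom.toAlgebra
  have : IsScalarTower ℚ Qbar ℂ := IsScalarTower.of_algebraMap_eq fun q => (ι.commutes q).symm
  refine ⟨(Complex.conjAe.restrictScalars ℚ).restrictNormal Qbar, ι.toRingHom, fun z => ?_⟩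
  exact AlgEquiv.restrictNormal_commutes (Complex.conjAe.restrictScalars ℚ) Qbar z

lemma conj_sq {c : GQ} (hc : IsComplexConj c) : c * c = 1 := by
  obtain ⟨ι, hι⟩ := hc
  ext z
  apply ι.injective
  change ι (c (c z)) = ι z
  rw [hι, hι, Complex.conj_conj]

lemma trace_conjMat (g : GL (Fin 2) k) : LinearMap.trace k _ (conjMat g) =
    (g : Matrix (Fin 2) (Fin 2) k).trace * ((g⁻¹ : GL (Fin 2) k) : Matrix (Fin 2) (Fin 2) k).trace := by
  rw [LinearMap.trace_eq_matrix_trace k (Matrix.stdBasis k (Fin 2) (Fin 2)), Matrix.trace,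
    Matrix.trace, Matrix.trace]
  rw [Fintype.sum_prod_type, Finset.sum_mul_sum]
  refine Finset.sum_congr rfl fun i _ => Finset.sum_congr rfl fun j _ => ?_
  rw [Matrix.diag_apply, LinearMap.toMatrix_apply, Matrix.stdBasis_eq_single]
  have h1 : ∀ X : Matrix (Fin 2) (Fin 2) k,
      (Matrix.stdBasis k (Fin 2) (Fin 2)).repr X (i, j) = X i j := by
    intro X
    conv_lhs => rw [Matrix.matrix_eq_sum_single X]
    simp only [map_sum, Finsupp.coe_finsetSum, Finset.sum_apply]
    have h2 : ∀ a b : Fin 2, ((Matrix.stdBasis k (Fin 2) (Fin 2)).repr (Matrix.single a b (X a b)))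
        (i, j) = if (a, b) = (i, j) then X a b else 0 := by
      intro a b
      have e : Matrix.single a b (X a b) = (X a b) • Matrix.single a b (1 : k) := by
        rw [Matrix.smul_single, smul_eq_mul, mul_one]
      rw [e, map_smul, Finsupp.smul_apply, ← Matrix.stdBasis_eq_single, Module.Basis.repr_self,
        Finsupp.single_apply]
      split_ifs <;> simp
    simp_rw [h2]
    rw [Finset.sum_eq_single i, Finset.sum_eq_single j]
    · simp
    · intro b _ hb
      rw [if_neg]
      intro h
      exact hb (Prod.ext_iff.1 h).2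
    · intro h
      exact absurd (Finset.mem_univ _) h
    · intro a _ ha
      refine Finset.sum_eq_zero fun b _ => ?_
      rw [if_neg]
      intro h
      exact ha (Prod.ext_iff.1 h).1
    · intro h
      exact absurd (Finset.mem_univ _) h
  rw [h1]
  unfold conjMat
  rw [LinearMap.comp_apply, LinearMap.mulLeft_apply, LinearMap.mulRight_apply, Matrix.mul_apply]
  rw [Finset.sum_eq_single i]
  · rw [Matrix.single_mul_apply_same]
    simp
  · intro b _ hb
    rw [Matrix.single_mul_apply_of_ne _ _ _ _ _ hb, mul_zero]
  · intro h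
    exact absurd (Finset.mem_univ _) h

lemma trace_quot {V : Type} [AddCommGroup V] [Module k V] [FiniteDimensional k V]
    (T : V →ₗ[k] V) (v : V) (hv : v ≠ 0) (hT : T v = v)
    (h : Submodule.span k {v} ≤ (Submodule.span k {v}).comap T) :
    LinearMap.trace k (V ⧸ Submodule.span k {v}) (Submodule.mapQ _ _ T h) =
      LinearMap.trace k V T - 1 := by
  obtain ⟨s, hs⟩ := (Submodule.mkQ (Submodule.span k {v})).exists_rightInverse_of_surjective
    (Submodule.range_mkQ _)
  have hs' : ∀ y, Submodule.mkQ (Submodule.span k {v}) (s y) = y := fun y => by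
    rw [← LinearMap.comp_apply, hs, LinearMap.id_apply]
  set Q : V →ₗ[k] V ⧸ Submodule.span k {v} := Submodule.mkQ (Submodule.span k {v}) with hQ
  let P : V →ₗ[k] V := LinearMap.id - s.comp Q
  have hPmem : ∀ y, P y ∈ Submodule.span k {v} := by
    intro y
    rw [← Submodule.Quotient.mk_eq_zero]
    change Q (y - s (Q y)) = 0
    rw [map_sub, hs', sub_self]
  have hPid : ∀ y ∈ Submodule.span k {v}, P y = y := by
    intro y hy
    have : Q y = 0 := (Submodule.Quotient.mk_eq_zero _).2 hy
    change y - s (Q y) = y
    rw [this, map_zero, sub_zero]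
  have hproj : LinearMap.IsProj (Submodule.span k {v}) P := ⟨hPmem, hPid⟩
  have htrP : LinearMap.trace k V P = 1 := by
    rw [hproj.trace, finrank_span_singleton hv]
    simp
  have hTP : T.comp P = P := by
    ext y
    rw [LinearMap.comp_apply]
    obtain ⟨c, hc⟩ := Submodule.mem_span_singleton.1 (hPmem y)
    rw [← hc, map_smul, hT]
  have h1 : Submodule.mapQ _ _ T h = (Q.comp T).comp s := by
    have h2 : (Submodule.mapQ _ _ T h).comp Q = Q.comp T := Submodule.mapQ_mkQ _ _ _
    rw [← h2, LinearMap.comp_assoc, hs, LinearMap.comp_id]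
  rw [h1, LinearMap.trace_comp_comm', ← LinearMap.comp_assoc]
  have h3 : (s.comp Q).comp T = T - P.comp T := by
    ext y
    simp [P]
  rw [h3, map_sub, LinearMap.trace_comp_comm', hTP, htrP]

lemma trace_Ad (g : GL (Fin 2) k) : LinearMap.trace k (LiePGL k) (Ad g) =
    (g : Matrix (Fin 2) (Fin 2) k).trace *
      ((g⁻¹ : GL (Fin 2) k) : Matrix (Fin 2) (Fin 2) k).trace - 1 := by
  rw [← trace_conjMat]
  exact trace_quot (conjMat g) (1 : Matrix (Fin 2) (Fin 2) k) one_ne_zero (by simp [conjMat]) _

lemma trace_AdT {m : ℕ} (g : Fin m → GL (Fin 2) k) :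
    LinearMap.trace k (LieGD m k) (AdT g) =
      ∑ j, LinearMap.trace k (LiePGL k) (Ad (g j)) := by
  classical
  let b := Module.finBasis k (LiePGL k)
  let T : (Fin m → LiePGL k) →ₗ[k] (Fin m → LiePGL k) :=
    LinearMap.pi fun j => (Ad (g j)).comp (LinearMap.proj j)
  have h0 : LinearMap.trace k (LieGD m k) (AdT g) = LinearMap.trace k (Fin m → LiePGL k) T := rfl
  rw [h0, LinearMap.trace_eq_matrix_trace k (Pi.basis fun _ : Fin m => b), Matrix.trace,
    Fintype.sum_sigma]
  refine Finset.sum_congr rfl fun j _ => ?_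
  rw [LinearMap.trace_eq_matrix_trace k b, Matrix.trace]
  refine Finset.sum_congr rfl fun i _ => ?_
  rw [Matrix.diag_apply, Matrix.diag_apply, LinearMap.toMatrix_apply, LinearMap.toMatrix_apply,
    Pi.basis_repr, Pi.basis_apply]
  have e : T (Pi.single j (b i) : Fin m → LiePGL k) j = Ad (g j) (b i) := by
    change Ad (g j) ((Pi.single j (b i) : Fin m → LiePGL k) j) = _
    rw [Pi.single_eq_same]
  rw [e]

open Classical in
/-- The trace of `Ad` of an element of order dividing `2` of `PGL_2(k)`. -/
lemma trace_Ad_invol (g : GL (Fin 2) k)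
    (hg : ProjGenLinGroup.mk g * ProjGenLinGroup.mk g = 1) :
    LinearMap.trace k (LiePGL k) (Ad g) = if ProjGenLinGroup.mk g = 1 then 3 else -1 := by
  by_cases h : ProjGenLinGroup.mk g = 1
  · rw [if_pos h, Ad_one_of k h, LinearMap.trace_id, finrank_Lie]
    norm_num
  · rw [if_neg h, trace_Ad]
    have h1 : (g : Matrix (Fin 2) (Fin 2) k).trace = 0 := by
      by_contra htr
      apply h
      rw [← map_mul, ← map_one (ProjGenLinGroup.mk (n := Fin 2) (R := k)),
        ProjGenLinGroup.mk_eq_mk_iff] at hg
      obtain ⟨u, hu⟩ := hg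
      have hu' : (g : Matrix (Fin 2) (Fin 2) k) * (g : Matrix (Fin 2) (Fin 2) k) =
          ((u⁻¹ : kˣ) : k) • (1 : Matrix (Fin 2) (Fin 2) k) := by
        have h3 : g * g = (Matrix.GeneralLinearGroup.scalar (Fin 2) u)⁻¹ :=
          eq_inv_of_mul_eq_one_left hu
        have h4 := congrArg (fun x : GL (Fin 2) k => (x : Matrix (Fin 2) (Fin 2) k)) h3
        simp only [Units.val_mul] at h4
        rw [h4, ← map_inv, Matrix.GeneralLinearGroup.coe_scalar, Matrix.scalar_apply,
          Matrix.smul_one_eq_diagonal]
      set X := (g : Matrix (Fin 2) (Fin 2) k) with hX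
      have e00 := congrFun (congrFun hu' 0) 0
      have e01 := congrFun (congrFun hu' 0) 1
      have e10 := congrFun (congrFun hu' 1) 0
      have e11 := congrFun (congrFun hu' 1) 1
      rw [Matrix.mul_apply, Fin.sum_univ_two, Matrix.smul_apply] at e00 e01 e10 e11
      rw [Matrix.one_apply_eq, smul_eq_mul, mul_one] at e00 e11
      rw [Matrix.one_apply_ne (by decide), smul_zero] at e01 e10
      rw [Matrix.trace_fin_two] at htr
      have f01 : X 0 1 = 0 := by
        have : (X 0 0 + X 1 1) * X 0 1 = 0 := by linear_combination e01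
        exact (mul_eq_zero.1 this).resolve_left htr
      have f10 : X 1 0 = 0 := by
        have : (X 0 0 + X 1 1) * X 1 0 = 0 := by linear_combination e10
        exact (mul_eq_zero.1 this).resolve_left htr
      have fd : X 0 0 = X 1 1 := by
        have : (X 0 0 + X 1 1) * (X 0 0 - X 1 1) = 0 := by linear_combination e00 - e11
        exact sub_eq_zero.1 ((mul_eq_zero.1 this).resolve_left htr)
      have hx0 : X 0 0 ≠ 0 := by
        intro h0
        apply htr
        rw [← fd, h0, add_zero]
      have : ProjGenLinGroup.mk g = ProjGenLinGroup.mk 1 := by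
        refine mk_eq_of_smul k hx0 ?_
        rw [← hX, Units.val_one]
        ext i j
        fin_cases i <;> fin_cases j
        · simp
        · simpa using f01
        · simpa using f10
        · simpa using fd.symm
      rw [this, map_one]
    rw [h1, zero_mul, zero_sub]

/-- The oddness condition of the question for `SL_2 ^ m`, in odd characteristic `p`: for every
complex conjugation `c`, the number of components of `r c` that are trivial is divisible by `p`. -/
theorem isOdd_iff (p : ℕ) [hp : Fact p.Prime] (hp2 : p ≠ 2) [CharP k p] {m : ℕ}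
    (r : GQ →* GD m k) :
    IsOdd r ↔ ∀ c, IsComplexConj c → p ∣ Nat.card {j : Fin m // r c j = 1} := by
  classical
  have h2 : (2 : k) ≠ 0 := by
    intro h
    have h1 : ((2 : ℕ) : k) = 0 := by exact_mod_cast h
    rw [CharP.cast_eq_zero_iff k p] at h1
    exact hp2 ((Nat.prime_dvd_prime_iff_eq hp.out Nat.prime_two).1 h1)
  have h4 : (4 : k) ≠ 0 := by
    have : (4 : k) = 2 * 2 := by norm_num
    rw [this]
    exact mul_ne_zero h2 h2
  have key : ∀ c, IsComplexConj c → ∀ g : Fin m → GL (Fin 2) k,
      cls g = r c →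
      (LinearMap.trace k (LieGD m k) (AdT g) = (((m : ℤ) - 2 * (m : ℤ) : ℤ) : k) ↔
        p ∣ Nat.card {j : Fin m // r c j = 1}) := by
    intro c hc g hg'
    have hg : ∀ j, ProjGenLinGroup.mk (g j) = r c j := fun j => congrFun hg' j
    have h3 : LinearMap.trace k (LieGD m k) (AdT g) =
        4 * ((Nat.card {j : Fin m // r c j = 1} : ℕ) : k) - m := by
      rw [trace_AdT]
      have h5 : ∀ j, LinearMap.trace k (LiePGL k) (Ad (g j)) =
          4 * (if r c j = 1 then 1 else 0) - 1 := by
        intro j
        have h6 : ProjGenLinGroup.mk (g j) * ProjGenLinGroup.mk (g j) = 1 := by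
          rw [hg j]
          have h7 : r c * r c = 1 := by rw [← map_mul, conj_sq hc, map_one]
          exact congrFun h7 j
        rw [trace_Ad_invol (g j) h6, hg j]
        split_ifs <;> norm_num
      simp_rw [h5]
      rw [Finset.sum_sub_distrib, ← Finset.mul_sum, Finset.sum_boole]
      simp only [Finset.sum_const, Finset.card_univ, Fintype.card_fin, nsmul_eq_mul, mul_one]
      rw [Nat.card_eq_fintype_card, Fintype.card_subtype]
    rw [h3, ← CharP.cast_eq_zero_iff k p]
    push_cast
    constructor
    · intro h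
      have : (4 : k) * ((Nat.card {j : Fin m // r c j = 1} : ℕ) : k) = 0 := by
        linear_combination h
      exact (mul_eq_zero.1 this).resolve_left h4
    · intro h
      rw [h]
      ring
  constructor
  · intro h c hc
    choose g hg using fun j => ProjGenLinGroup.mk_surjective (r c j)
    exact (key c hc g (funext hg)).1 (h c hc g (funext hg))
  · intro h c hc g hg
    exact (key c hc g hg).2 (h c hc)

lemma odd_RR_iff (k : Type) [Field k] [CharP k 3] (m : ℕ) : IsOdd (RR k m) ↔ 3 ∣ m := by
  rw [isOdd_iff 3 (by norm_num)]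
  have key : ∀ c, IsComplexConj c → Nat.card {j : Fin m // RR k m c j = 1} = m := by
    intro c hc
    have h2 : ∀ j : Fin m, RR k m c j = 1 := by
      intro j
      rw [RR_apply, P_conj hc, map_one]
    rw [Nat.card_congr (Equiv.subtypeUnivEquiv h2), Nat.card_eq_fintype_card, Fintype.card_fin]
  constructor
  · intro h
    obtain ⟨c, hc⟩ := exists_conj
    have h1 := h c hc
    rwa [key c hc] at h1
  · intro h c hc
    rw [key c hc]
    exact h

theorem hypotheses_iff (k : Type) [Field k] [CharP k 3] {m : ℕ} (x : Fin m → ℤ)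
    (hx : ∀ j, Even (x j) ∧ 2 ≤ x j) : Hypotheses 3 k x {163} (RR k m) ↔ 3 ∣ m := by
  constructor
  · intro h
    exact (odd_RR_iff k m).1 h.odd
  · intro hm
    exact
    { regular := fun j => (hx j).2
      primes := by
        intro l hl
        rw [Finset.mem_singleton] at hl
        subst hl
        norm_num
      continuous := cont_RR k m
      odd := (odd_RR_iff k m).2 hm
      ordinary := ordinary k x fun j => (hx j).1
      steinberg := by
        intro l hl
        rw [Finset.mem_singleton] at hl
        subst hl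
        exact stein k m
      unramified := by
        intro l hl hl' _ A hA σ hσ
        rw [Finset.mem_singleton] at hl'
        exact RR_of_P k (P_unramified hl hl' hA hσ) }

end

end Pool.Agent.H418.F2
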