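import Mathlib
import Pool.Agent.H418.F2.Defs

/-! The irreducible representation of `SL_2(ℚ) ^ m` of highest weight `(1, …, 1)` and a stable
lattice in it. -/

set_option autoImplicit false

open Matrix
open scoped MatrixGroups

namespace Pool.Agent.H418.F2

noncomputable section

/-- Index set of the basis of the `m`-th external tensor power of the standard representation. -/
abbrev Ix (m : ℕ) : Type := Fin m → Fin 2

/-- The matrix of the action of `g`. -/
def KK {m : ℕ} {R : Type} [CommRing R] (g : G m R) : Matrix (Ix m) (Ix m) R :=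
  fun s t => ∏ j, (g j).1 (s j) (t j)

lemma KK_mul {m : ℕ} {R : Type} [CommRing R] (g h : G m R) : KK (g * h) = KK g * KK h := by
  ext s u
  rw [Matrix.mul_apply]
  unfold KK
  have e : ∀ j, ((g * h) j).1 (s j) (u j) = ∑ b : Fin 2, (g j).1 (s j) b * (h j).1 b (u j) := by
    intro j
    change ((g j).1 * (h j).1) (s j) (u j) = _
    rw [Matrix.mul_apply]
  simp_rw [e, ← Finset.prod_mul_distrib]
  rw [Finset.prod_univ_sum, Fintype.piFinset_univ]

lemma KK_one {m : ℕ} {R : Type} [CommRing R] : KK (1 : G m R) = 1 := by
  ext s t
  unfold KK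
  by_cases h : s = t
  · subst h
    rw [Matrix.one_apply_eq]
    refine Finset.prod_eq_one fun j _ => ?_
    change (1 : Matrix (Fin 2) (Fin 2) R) (s j) (s j) = 1
    rw [Matrix.one_apply_eq]
  · rw [Matrix.one_apply_ne h]
    obtain ⟨j, hj⟩ := Function.ne_iff.1 h
    refine Finset.prod_eq_zero (Finset.mem_univ j) ?_
    change (1 : Matrix (Fin 2) (Fin 2) R) (s j) (t j) = 0
    rw [Matrix.one_apply_ne hj]

/-- The external tensor product of `m` standard representations. -/
def piStd (m : ℕ) : Representation ℚ (G m ℚ) (Ix m → ℚ) where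
  toFun g := Matrix.mulVecLin (KK g)
  map_one' := by
    rw [KK_one, Matrix.mulVecLin_one]
    rfl
  map_mul' g h := by
    rw [KK_mul, Matrix.mulVecLin_mul]
    rfl

lemma piStd_apply {m : ℕ} (g : G m ℚ) (v : Ix m → ℚ) (s : Ix m) :
    piStd m g v s = ∑ t, KK g s t * v t := rfl

/-- An element of `SL_2` placed in the `j`-th factor. -/
def put {m : ℕ} (j : Fin m) (h : SL(2, ℚ)) : G m ℚ :=
  (Function.update (1 : Fin m → SL(2, ℚ)) j h : Fin m → SL(2, ℚ))

lemma put_act {m : ℕ} (j : Fin m) (h : SL(2, ℚ)) (v : Ix m → ℚ) (s : Ix m) :
    piStd m (put j h) v s = ∑ b : Fin 2, h.1 (s j) b * v (Function.update s j b) := by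
  rw [piStd_apply]
  have hinj : Function.Injective (fun b : Fin 2 => Function.update s j b) := by
    intro b c hbc
    have := congrFun hbc j
    simpa using this
  have h1 : ∑ t ∈ Finset.univ.image (fun b : Fin 2 => Function.update s j b), KK (put j h) s t * v t
      = ∑ t, KK (put j h) s t * v t := by
    refine Finset.sum_subset (Finset.subset_univ _) fun t _ ht => ?_
    have h2 : ∃ i, i ≠ j ∧ s i ≠ t i := by
      by_contra hcon
      push Not at hcon
      apply ht
      rw [Finset.mem_image]
      refine ⟨t j, Finset.mem_univ _, ?_⟩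
      funext i
      by_cases hi : i = j
      · subst hi
        simp
      · rw [Function.update_of_ne hi]
        exact hcon i hi
    obtain ⟨i, hij, hi⟩ := h2
    have h3 : KK (put j h) s t = 0 := by
      refine Finset.prod_eq_zero (Finset.mem_univ i) ?_
      unfold put
      rw [Function.update_of_ne hij]
      change (1 : Matrix (Fin 2) (Fin 2) ℚ) (s i) (t i) = 0
      rw [Matrix.one_apply_ne hi]
    rw [h3, zero_mul]
  rw [← h1, Finset.sum_image (fun b _ c _ hbc => hinj hbc)]
  refine Finset.sum_congr rfl fun b _ => ?_
  congr 1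
  unfold KK
  rw [Finset.prod_eq_single j]
  · unfold put
    rw [Function.update_self, Function.update_self]
  · intro i _ hi
    unfold put
    rw [Function.update_of_ne hi, Function.update_of_ne hi]
    change (1 : Matrix (Fin 2) (Fin 2) ℚ) (s i) (s i) = 1
    rw [Matrix.one_apply_eq]
  · intro hj
    exact absurd (Finset.mem_univ j) hj

def up : SL(2, ℚ) := ⟨!![1, 1; 0, 1], by simp⟩

def lo : SL(2, ℚ) := ⟨!![1, 0; 1, 1], by simp⟩

lemma up_act {m : ℕ} (j : Fin m) (v : Ix m → ℚ) (s : Ix m) :
    (piStd m (put j up) v - v) s = if s j = 0 then v (Function.update s j 1) else 0 := by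
  rw [Pi.sub_apply, put_act, Fin.sum_univ_two]
  have hs : Function.update s j (s j) = s := Function.update_eq_self j s
  by_cases h : s j = 0
  · rw [if_pos h, h]
    rw [h] at hs
    rw [hs]
    simp [up]
  · have h1 : s j = 1 := by omega
    rw [if_neg h, h1]
    rw [h1] at hs
    rw [hs]
    simp [up]

lemma lo_act {m : ℕ} (j : Fin m) (v : Ix m → ℚ) (s : Ix m) :
    (piStd m (put j lo) v - v) s = if s j = 1 then v (Function.update s j 0) else 0 := by
  rw [Pi.sub_apply, put_act, Fin.sum_univ_two]
  have hs : Function.update s j (s j) = s := Function.update_eq_self j s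
  by_cases h : s j = 0
  · have h1 : ¬ s j = 1 := by omega
    rw [if_neg h1, h]
    rw [h] at hs
    rw [hs]
    simp [lo]
  · have h1 : s j = 1 := by omega
    rw [if_pos h1, h1]
    rw [h1] at hs
    rw [hs]
    simp [lo]

theorem piStd_irr (m : ℕ) (W : Submodule ℚ (Ix m → ℚ)) (hW : ∀ g, ∀ w ∈ W, piStd m g w ∈ W) :
    W = ⊥ ∨ W = ⊤ := by
  classical
  by_cases hbot : W = ⊥
  · exact Or.inl hbot
  right
  obtain ⟨w, hw, hw0⟩ := (Submodule.ne_bot_iff W).1 hbot
  -- a nonzero vector supported at the origin
  have key : ∀ J : Finset (Fin m), ∃ w ∈ W, w ≠ 0 ∧ ∀ s, w s ≠ 0 → ∀ j ∈ J, s j = 0 := by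
    intro J
    induction J using Finset.induction_on with
    | empty => exact ⟨w, hw, hw0, fun s _ j hj => absurd hj (Finset.notMem_empty j)⟩
    | insert j J hj ih =>
      obtain ⟨w, hw, hw0, hsup⟩ := ih
      by_cases hE : piStd m (put j up) w - w = 0
      · refine ⟨w, hw, hw0, fun s hs i hi => ?_⟩
        rcases Finset.mem_insert.1 hi with rfl | hi
        · by_contra hne
          have h1 : s i = 1 := by omega
          have h2 := congrFun hE (Function.update s i 0)
          rw [up_act, if_pos (Function.update_self _ _ _), Function.update_idem, ← h1,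
            Function.update_eq_self] at h2
          exact hs h2
        · exact hsup s hs i hi
      · refine ⟨_, sub_mem (hW _ _ hw) hw, hE, fun s hs i hi => ?_⟩
        rw [up_act] at hs
        by_cases hsj : s j = 0
        · rw [if_pos hsj] at hs
          rcases Finset.mem_insert.1 hi with rfl | hi'
          · exact hsj
          · have h3 := hsup _ hs i hi'
            have hne : i ≠ j := fun h => hj (by rw [← h]; exact hi')
            rwa [Function.update_of_ne hne] at h3
        · rw [if_neg hsj] at hs
          exact absurd rfl hs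
  obtain ⟨w₁, hw₁, hw₁0, hsup⟩ := key Finset.univ
  have h0 : (Pi.single (0 : Ix m) (1 : ℚ) : Ix m → ℚ) ∈ W := by
    have h1 : ∀ s, w₁ s ≠ 0 → s = 0 := fun s hs => funext fun j => hsup s hs j (Finset.mem_univ j)
    have h2 : w₁ 0 ≠ 0 := by
      intro h
      apply hw₁0
      funext s
      by_contra hs
      exact hs (by rw [h1 s hs]; exact h)
    have h3 : (Pi.single (0 : Ix m) (1 : ℚ) : Ix m → ℚ) = (w₁ 0)⁻¹ • w₁ := by
      funext s
      rw [Pi.smul_apply, smul_eq_mul]
      by_cases hs : s = 0
      · subst hs
        rw [Pi.single_eq_same, inv_mul_cancel₀ h2]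
      · rw [Pi.single_eq_of_ne hs]
        have : w₁ s = 0 := by
          by_contra h
          exact hs (h1 s h)
        rw [this, mul_zero]
    rw [h3]
    exact W.smul_mem _ hw₁
  -- all basis vectors
  have hall : ∀ J : Finset (Fin m),
      (Pi.single (fun j => if j ∈ J then 1 else 0 : Ix m) (1 : ℚ) : Ix m → ℚ) ∈ W := by
    intro J
    induction J using Finset.induction_on with
    | empty =>
      have e : (fun j => if j ∈ (∅ : Finset (Fin m)) then 1 else 0 : Ix m) = 0 := by
        funext j
        simp
      rw [e]
      exact h0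
    | insert j J hj ih =>
      have h1 := sub_mem (hW (put j lo) _ ih) ih
      have h2 : piStd m (put j lo) (Pi.single (fun j => if j ∈ J then 1 else 0 : Ix m) (1 : ℚ)) -
          Pi.single (fun j => if j ∈ J then 1 else 0 : Ix m) (1 : ℚ) =
          Pi.single (fun i => if i ∈ insert j J then 1 else 0 : Ix m) (1 : ℚ) := by
        funext s
        rw [lo_act]
        by_cases hs : s j = 1
        · rw [if_pos hs]
          by_cases h3 : Function.update s j 0 = (fun j => if j ∈ J then 1 else 0 : Ix m)
          · rw [h3, Pi.single_eq_same]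
            have h4 : s = (fun i => if i ∈ insert j J then 1 else 0 : Ix m) := by
              funext i
              by_cases hi : i = j
              · subst hi
                rw [hs, if_pos (Finset.mem_insert_self _ _)]
              · have h5 := congrFun h3 i
                rw [Function.update_of_ne hi] at h5
                rw [h5]
                simp [Finset.mem_insert, hi]
            rw [h4, Pi.single_eq_same]
          · rw [Pi.single_eq_of_ne h3]
            have h4 : s ≠ (fun i => if i ∈ insert j J then 1 else 0 : Ix m) := by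
              rintro rfl
              apply h3
              funext i
              by_cases hi : i = j
              · subst hi
                rw [Function.update_self, if_neg hj]
              · rw [Function.update_of_ne hi]
                simp [Finset.mem_insert, hi]
            rw [Pi.single_eq_of_ne h4]
        · rw [if_neg hs]
          have h4 : s ≠ (fun i => if i ∈ insert j J then 1 else 0 : Ix m) := by
            rintro rfl
            apply hs
            change (if j ∈ insert j J then (1 : Fin 2) else 0) = 1
            rw [if_pos (Finset.mem_insert_self _ _)]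
          rw [Pi.single_eq_of_ne h4]
      rw [h2] at h1
      exact h1
  have hall' : ∀ s : Ix m, (Pi.single s (1 : ℚ) : Ix m → ℚ) ∈ W := by
    intro s
    have h1 := hall (Finset.univ.filter fun j => s j = 1)
    have e : (fun j => if j ∈ (Finset.univ.filter fun j => s j = 1) then 1 else 0 : Ix m) = s := by
      funext j
      by_cases hj : s j = 1
      · simp [hj]
      · have : s j = 0 := by omega
        simp [this]
    rwa [e] at h1
  rw [Submodule.eq_top_iff']
  intro v
  rw [pi_eq_sum_univ' v]
  refine Submodule.sum_mem _ fun s _ => W.smul_mem _ ?_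
  exact hall' s

lemma KK_gmap {m : ℕ} (g : G m ℤ) (s t : Ix m) :
    KK (gmap m (Int.castRingHom ℚ) g) s t = ((KK g s t : ℤ) : ℚ) := by
  unfold KK
  rw [Int.cast_prod]
  rfl

theorem piStd_highest (m : ℕ) : ∃ v : Ix m → ℚ, v ≠ 0 ∧ ∀ b ∈ borel m ℚ,
    piStd m b v = (∏ j, ((b j).1 0 0) ^ (((2 : ℤ) - rho m j))) • v := by
  classical
  refine ⟨Pi.single 0 1, ?_, fun b hb => ?_⟩
  · intro h
    have := congrFun h 0
    rw [Pi.single_eq_same] at this
    exact one_ne_zero this
  · funext s
    rw [piStd_apply, Pi.smul_apply, smul_eq_mul]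
    rw [Finset.sum_eq_single (0 : Ix m)]
    · rw [Pi.single_eq_same, mul_one]
      by_cases hs : s = 0
      · subst hs
        rw [Pi.single_eq_same, mul_one]
        unfold KK
        refine Finset.prod_congr rfl fun j _ => ?_
        have : (2 : ℤ) - rho m j = 1 := by unfold rho; norm_num
        rw [this, zpow_one]
        rfl
      · rw [Pi.single_eq_of_ne hs, mul_zero]
        obtain ⟨j, hj⟩ := Function.ne_iff.1 hs
        have h1 : s j = 1 := by
          have : s j ≠ 0 := hj
          omega
        refine Finset.prod_eq_zero (Finset.mem_univ j) ?_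
        rw [h1]
        exact hb j
    · intro t _ ht
      rw [Pi.single_eq_of_ne ht, mul_zero]
    · intro h
      exact absurd (Finset.mem_univ _) h

theorem piStd_lattice (m : ℕ) : ∃ L : Submodule ℤ (Ix m → ℚ), IsStableLattice (piStd m) L := by
  classical
  let L : Submodule ℤ (Ix m → ℚ) :=
    Submodule.span ℤ (Set.range fun s : Ix m => (Pi.single s (1 : ℚ) : Ix m → ℚ))
  refine ⟨L, ⟨?_, ?_, ?_⟩⟩
  · exact Submodule.fg_span (Set.finite_range _)
  · rw [Submodule.eq_top_iff']
    intro v
    rw [pi_eq_sum_univ' v]
    refine Submodule.sum_mem _ fun s _ => Submodule.smul_mem _ _ ?_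
    apply Submodule.subset_span
    apply Submodule.subset_span
    refine ⟨s, ?_⟩
    funext j
    rfl
  · intro g v hv
    induction hv using Submodule.span_induction with
    | mem x hx =>
      obtain ⟨t, rfl⟩ := hx
      have e : piStd m (gmap m (Int.castRingHom ℚ) g) (Pi.single t 1) =
          ∑ s : Ix m, (KK g s t) • (Pi.single s (1 : ℚ) : Ix m → ℚ) := by
        funext s
        rw [piStd_apply, Finset.sum_apply, Finset.sum_eq_single t, Finset.sum_eq_single s]
        · rw [Pi.single_eq_same, mul_one, Pi.smul_apply, Pi.single_eq_same, KK_gmap]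
          simp
        · intro u _ hu
          rw [Pi.smul_apply, Pi.single_eq_of_ne hu.symm, smul_zero]
        · intro h
          exact absurd (Finset.mem_univ _) h
        · intro u _ hu
          rw [Pi.single_eq_of_ne hu, mul_zero]
        · intro h
          exact absurd (Finset.mem_univ _) h
      rw [e]
      exact Submodule.sum_mem _ fun s _ => L.smul_mem _ (Submodule.subset_span ⟨s, rfl⟩)
    | zero => rw [map_zero]; exact L.zero_mem
    | add x y _ _ hx hy => rw [map_add]; exact L.add_mem hx hy
    | smul c x _ hx =>
      rw [LinearMap.map_smul_of_tower]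
      exact L.smul_mem c hx

end

end Pool.Agent.H418.F2
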